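import Mathlib

set_option autoImplicit false

open Polynomial TensorProduct

namespace Pool.Agent.Helper19.BS

/-- The `k`-points of `A` are dense. -/
def DensePoints (k A : Type) [Field k] [CommRing A] [Algebra k A] : Prop :=
  ∀ a : A, a ≠ 0 → ∃ y : A →ₐ[k] k, y a ≠ 0

/-- Nullstellensatz: points are dense on affine varieties over algebraically closed fields. -/
theorem densePoints_of_isAlgClosed (k A : Type) [Field k] [IsAlgClosed k] [CommRing A] [IsDomain A]
    [Algebra k A] [Algebra.FiniteType k A] : DensePoints k A := by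
  intro a ha
  have hJ : IsJacobsonRing A := isJacobsonRing_of_finiteType (A := k) (B := A)
  have h1 : (⊥ : Ideal A).jacobson = ⊥ := by
    have := (isJacobsonRing_iff_prime_eq.1 hJ) (⊥ : Ideal A) Ideal.isPrime_bot
    exact this
  have h2 : a ∉ (⊥ : Ideal A).jacobson := by rw [h1]; simpa using ha
  rw [Ideal.mem_jacobson_bot] at h2
  have h2' : ∃ M : Ideal A, M.IsMaximal ∧ a ∉ M := by
    by_contra hcon
    push Not at hcon
    apply ha
    have : a ∈ (⊥ : Ideal A).jacobson := by
      rw [Ideal.jacobson, Ideal.mem_sInf]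
      intro J hJ'
      exact hcon J hJ'.2
    rw [h1] at this
    simpa using this
  obtain ⟨M, hM, haM⟩ := h2'
  let _ : Field (A ⧸ M) := Ideal.Quotient.field M
  have hft : Algebra.FiniteType k (A ⧸ M) := inferInstance
  have hfin : Module.Finite k (A ⧸ M) := finite_of_finite_type_of_isJacobsonRing k (A ⧸ M)
  have hint : Algebra.IsIntegral k (A ⧸ M) := inferInstance
  have hbij : Function.Bijective (algebraMap k (A ⧸ M)) :=
    IsAlgClosed.algebraMap_bijective_of_isIntegral
  let e : k ≃ₐ[k] (A ⧸ M) := AlgEquiv.ofBijective (Algebra.ofId k (A ⧸ M)) hbij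
  refine ⟨(e.symm : (A ⧸ M) →ₐ[k] k).comp (Ideal.Quotient.mkₐ k M), ?_⟩
  intro h
  apply haM
  have h3 : e.symm (Ideal.Quotient.mk M a) = 0 := h
  rw [map_eq_zero_iff _ e.symm.injective] at h3
  exact Ideal.Quotient.eq_zero_iff_mem.1 h3

/-- Points are dense on affine space over an infinite field. -/
theorem densePoints_mvPolynomial (k : Type) [Field k] [Infinite k] (n : ℕ) :
    DensePoints k (MvPolynomial (Fin n) k) := by
  intro a ha
  by_contra hcon
  push Not at hcon
  apply ha
  apply MvPolynomial.funext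
  intro x
  have := hcon (MvPolynomial.aeval x)
  rw [map_zero]
  rw [MvPolynomial.aeval_eq_eval] at this
  exact this

theorem DensePoints.away {k A : Type} [Field k] [CommRing A] [IsDomain A] [Algebra k A]
    (h : DensePoints k A) {s : A} (hs : s ≠ 0) : DensePoints k (Localization.Away s) := by
  intro b hb
  obtain ⟨n, a, ha⟩ := IsLocalization.Away.surj s b
  have ha0 : a ≠ 0 := by
    rintro rfl
    rw [map_zero] at ha
    have hu : IsUnit (algebraMap A (Localization.Away s) s ^ n) :=
      (IsLocalization.Away.algebraMap_isUnit s).pow n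
    rw [hu.mul_left_eq_zero] at ha
    exact hb ha
  obtain ⟨y, hy⟩ := h (a * s) (mul_ne_zero ha0 hs)
  rw [map_mul] at hy
  have hys : IsUnit (y s) := (right_ne_zero_of_mul hy).isUnit
  refine ⟨IsLocalization.liftAlgHom (M := Submonoid.powers s) (f := y) ?_, ?_⟩
  · rintro ⟨_, m, rfl⟩
    show IsUnit (y (s ^ m))
    rw [map_pow]
    exact hys.pow m
  · intro h0
    have h1 := congrArg (IsLocalization.liftAlgHom (M := Submonoid.powers s) (f := y)
      (by
        rintro ⟨_, m, rfl⟩
        show IsUnit (y (s ^ m))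
        rw [map_pow]
        exact hys.pow m)) ha
    rw [map_mul] at h1
    erw [h0] at h1
    rw [zero_mul] at h1
    have h2 : IsLocalization.liftAlgHom (M := Submonoid.powers s) (f := y)
      (by
        rintro ⟨_, m, rfl⟩
        show IsUnit (y (s ^ m))
        rw [map_pow]
        exact hys.pow m) (algebraMap A (Localization.Away s) a) = y a := by
      exact IsLocalization.lift_eq _ a
    rw [h2] at h1
    exact left_ne_zero_of_mul hy h1.symm

section Tensor

variable {k A L : Type} [Field k] [CommRing A] [Algebra k A] [Field L] [Algebra k L]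

/-- Evaluation `A ⊗ L → L` at a `k`-point of `A`. -/
noncomputable def evPt (y : A →ₐ[k] k) : A ⊗[k] L →ₐ[k] L :=
  Algebra.TensorProduct.lift ((Algebra.ofId k L).comp y) (AlgHom.id k L) (fun _ _ => Commute.all _ _)

theorem evPt_tmul (y : A →ₐ[k] k) (a : A) (l : L) :
    evPt y (a ⊗ₜ[k] l) = algebraMap k L (y a) * l := by
  simp [evPt, Algebra.ofId_apply]

/-- coordinates with respect to a basis of `L` -/
theorem evPt_eq_sum (y : A →ₐ[k] k) {ι : Type} (b : Module.Basis ι k L) (s : A ⊗[k] L) :
    evPt y s = ((Algebra.TensorProduct.basis A b).repr s).sum fun i a => y a • b i := by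
  classical
  conv_lhs => rw [← (Algebra.TensorProduct.basis A b).linearCombination_repr s]
  rw [Finsupp.linearCombination_apply, Finsupp.sum, map_sum]
  refine Finset.sum_congr rfl fun i _ => ?_
  rw [Algebra.TensorProduct.basis_apply, TensorProduct.smul_tmul', smul_eq_mul, mul_one,
    evPt_tmul]
  exact (Algebra.smul_def _ _).symm

theorem evPt_ne_zero (y : A →ₐ[k] k) {ι : Type} (b : Module.Basis ι k L) (s : A ⊗[k] L) (i : ι)
    (hi : y ((Algebra.TensorProduct.basis A b).repr s i) ≠ 0) : evPt y s ≠ 0 := by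
  classical
  intro h
  apply hi
  rw [evPt_eq_sum y b s] at h
  have hb := b.linearIndependent
  rw [linearIndependent_iff'] at hb
  have h3 := hb _ _ h
  by_cases hmem : i ∈ ((Algebra.TensorProduct.basis A b).repr s).support
  · exact h3 i hmem
  · rw [Finsupp.notMem_support_iff.1 hmem, map_zero]

/-- Two nonzero elements of `A ⊗ L` are nonzero at a common `k`-point. -/
theorem exists_evPt_ne (h : DensePoints k A) [IsDomain A] {f g : A ⊗[k] L} (hf : f ≠ 0)
    (hg : g ≠ 0) : ∃ y : A →ₐ[k] k, evPt y f ≠ 0 ∧ evPt y g ≠ 0 := by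
  classical
  let b := Module.Basis.ofVectorSpace k L
  let B := Algebra.TensorProduct.basis A b
  have hf' : B.repr f ≠ 0 := fun h0 => hf (B.repr.map_eq_zero_iff.1 h0)
  have hg' : B.repr g ≠ 0 := fun h0 => hg (B.repr.map_eq_zero_iff.1 h0)
  obtain ⟨i, hi⟩ := Finsupp.ne_iff.1 hf'
  obtain ⟨j, hj⟩ := Finsupp.ne_iff.1 hg'
  obtain ⟨y, hy⟩ := h (B.repr f i * B.repr g j) (mul_ne_zero hi hj)
  rw [map_mul] at hy
  exact ⟨y, evPt_ne_zero y b f i (left_ne_zero_of_mul hy),
    evPt_ne_zero y b g j (right_ne_zero_of_mul hy)⟩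

theorem isDomain_tensor (h : DensePoints k A) [IsDomain A] : IsDomain (A ⊗[k] L) := by
  have hnt : Nontrivial (A ⊗[k] L) := inferInstance
  have hnz : NoZeroDivisors (A ⊗[k] L) := ⟨by
    intro f g hfg
    by_contra hcon
    push Not at hcon
    obtain ⟨y, h1, h2⟩ := exists_evPt_ne h hcon.1 hcon.2
    have h3 : evPt y (f * g) = 0 := by rw [hfg, map_zero]
    rw [map_mul] at h3
    rcases mul_eq_zero.1 h3 with h4 | h4
    · exact h1 h4
    · exact h2 h4⟩
  exact NoZeroDivisors.to_isDomain _

/-- The map `A ⊗ L → Ω` induced by embeddings of `A` and `L`. -/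
noncomputable def both {Ω : Type} [Field Ω] [Algebra k Ω] [Algebra L Ω] [IsScalarTower k L Ω]
    (τ : A →ₐ[k] Ω) : A ⊗[k] L →ₐ[k] Ω :=
  Algebra.TensorProduct.lift τ (IsScalarTower.toAlgHom k L Ω) (fun _ _ => Commute.all _ _)

theorem both_tmul {Ω : Type} [Field Ω] [Algebra k Ω] [Algebra L Ω] [IsScalarTower k L Ω]
    (τ : A →ₐ[k] Ω) (a : A) (l : L) : both τ (a ⊗ₜ[k] l) = τ a * algebraMap L Ω l := by
  simp [both]

/-- If `A` is algebraic over `k[t]` and the images of the `t_i` are algebraically independent over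
`L`, then `A ⊗ L → Ω` is injective. -/
theorem both_injective {Ω : Type} [Field Ω] [Algebra k Ω] [Algebra L Ω] [IsScalarTower k L Ω]
    (τ : A →ₐ[k] Ω) (hτ : Function.Injective τ) {I : Type} (t : I → A)
    (ht : ∀ a : A, IsAlgebraic (Algebra.adjoin k (Set.range t)) a)
    (hind : AlgebraicIndependent L (fun i => τ (t i))) (hdom : IsDomain (A ⊗[k] L)) :
    Function.Injective (both (L := L) τ) := by
  classical
  let R := MvPolynomial I L
  let φ : R →+* A ⊗[k] L := MvPolynomial.eval₂Hom
    (Algebra.TensorProduct.includeRight (R := k) (A := A) (B := L)).toRingHom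
    (fun i => t i ⊗ₜ[k] (1 : L))
  let _ : Algebra R (A ⊗[k] L) := φ.toAlgebra
  have hφC : ∀ l : L, φ (MvPolynomial.C l) = (1 : A) ⊗ₜ[k] l := fun l =>
    MvPolynomial.eval₂Hom_C _ _ l
  have hφX : ∀ i : I, φ (MvPolynomial.X i) = t i ⊗ₜ[k] (1 : L) := fun i =>
    MvPolynomial.eval₂Hom_X' _ _ i
  have hφ : ∀ p : R, both τ (φ p) = MvPolynomial.aeval (fun i => τ (t i)) p := by
    intro p
    have : ((both (L := L) τ : A ⊗[k] L →ₐ[k] Ω) : A ⊗[k] L →+* Ω).comp φ =
        ((MvPolynomial.aeval (fun i => τ (t i)) : R →ₐ[L] Ω) : R →+* Ω) := by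
      apply MvPolynomial.ringHom_ext
      · intro l
        rw [RingHom.comp_apply, hφC]
        show both τ ((1 : A) ⊗ₜ[k] l) = _
        rw [both_tmul, map_one, one_mul]
        exact (MvPolynomial.aeval_C (fun i => τ (t i)) l).symm
      · intro i
        rw [RingHom.comp_apply, hφX]
        show both τ (t i ⊗ₜ[k] (1 : L)) = _
        rw [both_tmul, map_one, mul_one]
        exact (MvPolynomial.aeval_X (fun i => τ (t i)) i).symm
    exact congrArg (fun f : R →+* Ω => f p) this
  have hinjφ : Function.Injective φ := by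
    intro p q hpq
    apply hind
    rw [← hφ, ← hφ, hpq]
  have hR : IsDomain R := inferInstance
  -- algebraicity
  have h1 : ∀ a : A, IsAlgebraic R (a ⊗ₜ[k] (1 : L)) := by
    intro a
    -- the subring `k[t]` maps into `R`
    obtain ⟨p, hp0, hp⟩ := ht a
    -- lift the coefficients
    have hsurj : ∀ c : Algebra.adjoin k (Set.range t), ∃ q : MvPolynomial I k,
        MvPolynomial.aeval t q = (c : A) := by
      intro c
      have h0 : Algebra.adjoin k (Set.range t) ≤ (MvPolynomial.aeval t).range :=
        (Algebra.adjoin_range_eq_range_aeval k t).le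
      exact h0 c.2
    choose lift hlift using hsurj
    let m : MvPolynomial I k →+* R := MvPolynomial.map (algebraMap k L)
    have hmC : ∀ c : k, m (MvPolynomial.C c) = MvPolynomial.C (algebraMap k L c) := fun c =>
      MvPolynomial.map_C _ c
    have hmX : ∀ i : I, m (MvPolynomial.X i) = MvPolynomial.X i := fun i => MvPolynomial.map_X _ i
    have hm : ∀ q : MvPolynomial I k, φ (m q) = (MvPolynomial.aeval t q) ⊗ₜ[k] (1 : L) := by
      intro q
      have : φ.comp m = ((Algebra.TensorProduct.includeLeft (R := k) (S := k) (A := A)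
          (B := L)).comp (MvPolynomial.aeval t) : MvPolynomial I k →+* A ⊗[k] L) := by
        apply MvPolynomial.ringHom_ext
        · intro c
          rw [RingHom.comp_apply, hmC, hφC]
          simp only [RingHom.coe_coe, AlgHom.comp_apply, MvPolynomial.algHom_C,
            Algebra.TensorProduct.includeLeft_apply]
          rw [Algebra.algebraMap_eq_smul_one, ← TensorProduct.smul_tmul,
            Algebra.algebraMap_eq_smul_one]
        · intro i
          rw [RingHom.comp_apply, hmX, hφX]
          simp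
      exact congrArg (fun f : MvPolynomial I k →+* A ⊗[k] L => f q) this
    let P : R[X] := ∑ j ∈ p.support, Polynomial.monomial j (m (lift (p.coeff j)))
    have hPc : ∀ j, P.coeff j = if j ∈ p.support then m (lift (p.coeff j)) else 0 := by
      intro j
      rw [Polynomial.finsetSum_coeff]
      simp only [Polynomial.coeff_monomial]
      rw [Finset.sum_ite_eq' p.support j]
    refine ⟨P, ?_, ?_⟩
    · intro hP0
      apply hp0
      ext j
      by_cases hj : j ∈ p.support
      · have h2 := hPc j
        rw [hP0, Polynomial.coeff_zero, if_pos hj] at h2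
        have h3 := hm (lift (p.coeff j))
        rw [← h2, map_zero, hlift] at h3
        have h4 := congrArg (both (L := L) τ) h3
        rw [map_zero, both_tmul, map_one, mul_one] at h4
        have h5 : ((p.coeff j : Algebra.adjoin k (Set.range t)) : A) = 0 := by
          apply hτ; rw [map_zero]; exact h4.symm
        rw [h5]; rfl
      · rw [Polynomial.notMem_support_iff.1 hj]; rfl
    · have h6 : Polynomial.aeval (a ⊗ₜ[k] (1 : L)) P =
          (Polynomial.aeval a p) ⊗ₜ[k] (1 : L) := by
        rw [map_sum, Polynomial.aeval_eq_sum_range' (n := p.natDegree + 1) (Nat.lt_succ_self _) a,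
          TensorProduct.sum_tmul]
        rw [← Finset.sum_subset (s₁ := p.support)
          (f := fun j => (p.coeff j • a ^ j) ⊗ₜ[k] (1 : L))
          Polynomial.supp_subset_range_natDegree_succ]
        · refine Finset.sum_congr rfl fun j _ => ?_
          rw [Polynomial.aeval_monomial]
          show φ (m (lift (p.coeff j))) * _ = _
          rw [hm, hlift, Algebra.TensorProduct.tmul_pow, Algebra.TensorProduct.tmul_mul_tmul,
            one_pow, mul_one]
          rfl
        · intro j _ hj
          rw [Polynomial.notMem_support_iff.1 hj]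
          simp
      rw [h6, hp, TensorProduct.zero_tmul]
  have h2 : ∀ s : A ⊗[k] L, IsAlgebraic R s := by
    intro s
    induction s with
    | zero => exact isAlgebraic_zero
    | tmul a l =>
      have h3 : a ⊗ₜ[k] l = (a ⊗ₜ[k] (1 : L)) * ((1 : A) ⊗ₜ[k] l) := by
        rw [Algebra.TensorProduct.tmul_mul_tmul, mul_one, one_mul]
      rw [h3]
      refine (h1 a).mul ?_
      have h4 : ((1 : A) ⊗ₜ[k] l) = algebraMap R (A ⊗[k] L) (MvPolynomial.C l) := (hφC l).symm
      rw [h4]
      exact isAlgebraic_algebraMap _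
    | add s s' hs hs' => exact hs.add hs'
  rw [injective_iff_map_eq_zero]
  intro f hf
  by_contra hf0
  obtain ⟨r, hr, hdvd⟩ := (h2 f).exists_nonzero_dvd (mem_nonZeroDivisors_of_ne_zero hf0)
  obtain ⟨g, hg⟩ := hdvd
  have h5 : both τ (φ r) = 0 := by
    have : algebraMap R (A ⊗[k] L) r = φ r := rfl
    rw [← this, hg, map_mul, hf, zero_mul]
  rw [hφ] at h5
  apply hr
  apply hind
  rw [h5, map_zero]

end Tensor

/-- Two transcendence bases of an algebraically closed field indexed by the same type are
exchanged by an automorphism. -/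
theorem exists_aut {k Ω I : Type} [Field k] [Field Ω] [Algebra k Ω] [IsAlgClosed Ω]
    (v w : I → Ω) (hv : IsTranscendenceBasis k v) (hw : IsTranscendenceBasis k w) :
    ∃ σ : Ω ≃ₐ[k] Ω, ∀ i, σ (v i) = w i := by
  have h1 := IsAlgClosed.isAlgClosure_of_transcendence_basis v hv
  have h2 := IsAlgClosed.isAlgClosure_of_transcendence_basis w hw
  let e : Algebra.adjoin k (Set.range v) ≃ₐ[k] Algebra.adjoin k (Set.range w) :=
    hv.1.aevalEquiv.symm.trans hw.1.aevalEquiv
  let σ : Ω ≃+* Ω := IsAlgClosure.equivOfEquiv Ω Ω (e : Algebra.adjoin k (Set.range v) ≃+*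
    Algebra.adjoin k (Set.range w))
  have hσ : ∀ r : Algebra.adjoin k (Set.range v), σ (r : Ω) = (e r : Ω) := fun r =>
    IsAlgClosure.equivOfEquiv_algebraMap Ω Ω (e : Algebra.adjoin k (Set.range v) ≃+*
      Algebra.adjoin k (Set.range w)) r
  refine ⟨AlgEquiv.ofRingEquiv (f := σ) ?_, ?_⟩
  · intro c
    have h3 := hσ (algebraMap k _ c)
    rw [AlgEquiv.commutes] at h3
    exact h3
  · intro i
    show σ (v i) = w i
    have h4 : ((hv.1.aevalEquiv (MvPolynomial.X i) : Algebra.adjoin k (Set.range v)) : Ω) =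
        v i := by simp
    have h5 : ((hw.1.aevalEquiv (MvPolynomial.X i) : Algebra.adjoin k (Set.range w)) : Ω) =
        w i := by simp
    have h6 := hσ (hv.1.aevalEquiv (MvPolynomial.X i))
    rw [h4] at h6
    rw [h6]
    show ((hw.1.aevalEquiv (hv.1.aevalEquiv.symm (hv.1.aevalEquiv (MvPolynomial.X i))) :
      Algebra.adjoin k (Set.range w)) : Ω) = w i
    rw [AlgEquiv.symm_apply_apply, h5]

end Pool.Agent.Helper19.BS
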