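import Mathlib

set_option autoImplicit false

open AlgebraicGeometry CategoryTheory Polynomial

namespace Pool.Agent.Helper19.BS

/-- The spectrum of a commutative ring as a scheme. -/
noncomputable abbrev Sp (A : Type) [CommRing A] : Scheme.{0} := Spec (CommRingCat.of A)

/-- `X` is a smooth variety over the field `F` (smooth, separated, of finite type). -/
def IsSmoothVar (F : Type) [Field F] (X : Scheme.{0}) (f : X ⟶ Sp F) : Prop :=
  Smooth f ∧ QuasiCompact f ∧ IsSeparated f

/-- `X` is a smooth variety over some field of characteristic zero. -/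
def IsSm (X : Scheme.{0}) : Prop :=
  ∃ (F : Type) (_ : Field F) (_ : CharZero F) (f : X ⟶ Sp F), IsSmoothVar F X f

/-- The closed points of the affine line over a field `F`, i.e. the monic irreducible
polynomials over `F`. -/
structure ClosedPoint (F : Type) [Field F] where
  /-- the polynomial -/
  poly : F[X]
  monic : poly.Monic
  irreducible : Irreducible poly

instance {F : Type} [Field F] (p : ClosedPoint F) : Fact (Irreducible p.poly) :=
  ⟨p.irreducible⟩

/-- Rational motivic cohomology `H X k j = H^k(X, ℚ(j))` (`= CH^j(X, 2j - k) ⊗ ℚ`), pull-backs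
and the residues on affine lines. -/
structure MotTheory where
  /-- the groups `H^k(X, ℚ(j))` -/
  H : Scheme.{0} → ℤ → ℤ → Type
  [grp : ∀ X k j, AddCommGroup (H X k j)]
  [mod : ∀ X k j, Module ℚ (H X k j)]
  /-- pull-back along a morphism -/
  pull : ∀ {X Y : Scheme.{0}} (_ : X ⟶ Y) (k j : ℤ), H Y k j →ₗ[ℚ] H X k j
  /-- the residues on the affine line over a field `F` -/
  bdry : ∀ (F : Type) [Field F] [CharZero F] (k j : ℤ),
    H (Sp (RatFunc F)) k j →ₗ[ℚ] DirectSum (ClosedPoint F)
      (fun p => H (Sp (AdjoinRoot p.poly)) (k - 1) (j - 1))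

attribute [instance] MotTheory.grp MotTheory.mod

namespace MotTheory

variable (T : MotTheory)

/-- The pull-back along the morphism of spectra given by a homomorphism of rings. -/
noncomputable def res {A B : Type} [CommRing A] [CommRing B] (f : A →+* B) (k j : ℤ) :
    T.H (Sp A) k j →ₗ[ℚ] T.H (Sp B) k j :=
  T.pull (Spec.map (CommRingCat.ofHom f)) k j

/-- Contravariant functoriality for smooth varieties over fields of characteristic zero. -/
def Functoriality : Prop :=
  (∀ (X : Scheme.{0}) (k j : ℤ), IsSm X → T.pull (𝟙 X) k j = LinearMap.id) ∧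
  ∀ (X Y Z : Scheme.{0}) (f : X ⟶ Y) (g : Y ⟶ Z) (k j : ℤ), IsSm X → IsSm Y → IsSm Z →
    T.pull (f ≫ g) k j = (T.pull f k j).comp (T.pull g k j)

/-- Restriction to an extension field is injective (specialisation and transfer). -/
def ResInjective : Prop :=
  ∀ {F E : Type} [Field F] [Field E] [CharZero F] (f : F →+* E) (k j : ℤ),
    Function.Injective (T.res f k j)

/-- Continuity for fields: every class comes from a finitely generated subfield. -/
def Continuity : Prop :=
  ∀ (E : Type) [Field E] [CharZero E] (k j : ℤ) (a : T.H (Sp E) k j),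
    ∃ F : IntermediateField ℚ E, F.FG ∧ ∃ b : T.H (Sp F) k j, T.res (algebraMap F E) k j b = a

/-- Every class at the generic point of a smooth affine variety is defined on a dense open
subset. -/
def SpreadOut : Prop :=
  ∀ (F : Type) [Field F] [CharZero F] (A K : Type) [CommRing A] [IsDomain A] [Algebra F A]
    [Algebra.Smooth F A] [Field K] [Algebra A K] [IsFractionRing A K] (k j : ℤ)
    (u : T.H (Sp K) k j), ∃ (s : A) (f : Localization.Away s →+* K), s ≠ 0 ∧
      f.comp (algebraMap A (Localization.Away s)) = algebraMap A K ∧ ∃ v, T.res f k j v = u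

/-- Two classes on a smooth affine variety which agree at the generic point agree on a dense open
subset. -/
def Agree : Prop :=
  ∀ (F : Type) [Field F] [CharZero F] (A K : Type) [CommRing A] [IsDomain A] [Algebra F A]
    [Algebra.Smooth F A] [Field K] [Algebra A K] [IsFractionRing A K] (k j : ℤ)
    (u v : T.H (Sp A) k j), T.res (algebraMap A K) k j u = T.res (algebraMap A K) k j v →
      ∃ s : A, s ≠ 0 ∧ T.res (algebraMap A (Localization.Away s)) k j u =
        T.res (algebraMap A (Localization.Away s)) k j v

/-- The residues on the affine line over `F` are jointly surjective. -/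
def BdrySurjective : Prop :=
  ∀ (F : Type) [Field F] [CharZero F] (k j : ℤ), Function.Surjective (T.bdry F k j)

/-- The unramified classes over `F(t)` are the constant ones. -/
def BdryKer : Prop :=
  ∀ (F : Type) [Field F] [CharZero F] (k j : ℤ),
    LinearMap.ker (T.bdry F k j) = LinearMap.range (T.res (algebraMap F (RatFunc F)) k j)

/-- In weights `j ≤ 0` there is no cohomology in negative degrees. -/
def LowWeight : Prop :=
  ∀ (F : Type) [Field F] [CharZero F] (k j : ℤ), k < 0 → j ≤ 0 → Subsingleton (T.H (Sp F) k j)

/-- Consequence of the coniveau spectral sequence. -/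
def Coniveau : Prop :=
  ∀ (F : Type) [Field F] [CharZero F] (X : Scheme.{0}) (f : X ⟶ Sp F),
    IsSmoothVar F X f → ∀ k j : ℤ,
    (∀ (x : X) (c : ℕ), ringKrullDim (X.presheaf.stalk x) = c →
      Subsingleton (T.H (Sp (X.residueField x)) (k - 2 * c) (j - c))) →
    Subsingleton (T.H X k j)

/-- Borel's theorem: the strong vanishing holds for number fields. -/
def Borel : Prop :=
  ∀ (F : Type) [Field F] [NumberField F] (k j : ℤ), k ≤ 0 → 0 < j → Subsingleton (T.H (Sp F) k j)

end MotTheory

/-- The properties of rational motivic cohomology that are used. -/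
structure IsMotivic (T : MotTheory) : Prop where
  functoriality : T.Functoriality
  res_injective : T.ResInjective
  continuity : T.Continuity
  spread_out : T.SpreadOut
  agree : T.Agree
  bdry_surjective : T.BdrySurjective
  bdry_ker : T.BdryKer
  low_weight : T.LowWeight
  coniveau : T.Coniveau
  borel : T.Borel

/-- The field `ℚ(t_1, ..., t_n)`. -/
abbrev RatFuncs (n : ℕ) : Type := FractionRing (MvPolynomial (Fin n) ℚ)

/-- `X` satisfies the Beilinson-Soule vanishing: `H^k(X, ℚ(j)) = 0` for all `k < 0` and `j`. -/
def BeilinsonSoule (T : MotTheory) (X : Scheme.{0}) : Prop :=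
  ∀ k j : ℤ, k < 0 → Subsingleton (T.H X k j)

/-- `X` satisfies the strong Beilinson-Soule vanishing: `H^k(X, ℚ(j)) = 0` for all `k ≤ 0` and
`j > 0`. -/
def StrongBeilinsonSoule (T : MotTheory) (X : Scheme.{0}) : Prop :=
  ∀ k j : ℤ, k ≤ 0 → 0 < j → Subsingleton (T.H X k j)

/-- The vanishing `V` holds for all smooth varieties over all fields of characteristic zero. -/
def ForAll (V : Scheme.{0} → Prop) : Prop :=
  ∀ (F : Type) [Field F] [CharZero F] (X : Scheme.{0}) (f : X ⟶ Sp F), IsSmoothVar F X f → V X

/-- `P` is a class of smooth complex varieties which contains the point `Spec ℂ` (for example the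
class of all smooth projective complex varieties). -/
def IsClass (P : ∀ X : Scheme.{0}, (X ⟶ Sp ℂ) → Prop) : Prop :=
  (∀ X f, P X f → IsSmoothVar ℂ X f) ∧ P (Sp ℂ) (𝟙 _)

/-- The vanishing `V` holds for all members of the class `P`. -/
def ForClass (P : ∀ X : Scheme.{0}, (X ⟶ Sp ℂ) → Prop) (V : Scheme.{0} → Prop) : Prop :=
  ∀ X f, P X f → V X

/-- `H^k(Spec F, ℚ(w)) = 0` for all fields `F` of characteristic zero. -/
def FieldsVanish (T : MotTheory) (k w : ℤ) : Prop :=
  ∀ (F : Type) [Field F] [CharZero F], Subsingleton (T.H (Sp F) k w)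

/-- The algebraic numbers in a field of characteristic zero. -/
abbrev Qbar (E : Type) [Field E] [CharZero E] : IntermediateField ℚ E := algebraicClosure ℚ E

/-- The classes over `E` modulo the classes coming from the subfield `F`. -/
abbrev NewClasses (T : MotTheory) (F E : Type) [Field F] [Field E] [Algebra F E] (k w : ℤ) :
    Type :=
  T.H (Sp E) k w ⧸ LinearMap.range (T.res (algebraMap F E) k w)

/-- The transcendence degree over `ℚ` is infinite. -/
def Large (E : Type) [Field E] [CharZero E] : Prop :=
  Cardinal.aleph0 ≤ Algebra.trdeg ℚ E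

/-- All restriction maps between algebraically closed fields of characteristic zero are
bijective. -/
def Rigid (T : MotTheory) (k w : ℤ) : Prop :=
  ∀ (F E : Type) [Field F] [Field E] [CharZero F] [IsAlgClosed F] [IsAlgClosed E] (f : F →+* E),
    Function.Bijective (T.res f k w)

/-- All classes over `ℂ` come from the algebraic numbers. -/
def FromQbar (T : MotTheory) (k w : ℤ) : Prop :=
  Function.Bijective (T.res (algebraMap (Qbar ℂ) ℂ) k w)

/-- The classes over `ℂ` modulo those over the algebraic numbers have dimension less than the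
continuum. -/
def SmallOverC (T : MotTheory) (k w : ℤ) : Prop :=
  Module.rank ℚ (NewClasses T (Qbar ℂ) ℂ k w) < Cardinal.continuum

/-- The automorphisms of `ℂ` over the algebraic numbers act trivially. -/
def AutTrivial (T : MotTheory) (k w : ℤ) : Prop :=
  ∀ (σ : ℂ ≃ₐ[Qbar ℂ] ℂ) (u : T.H (Sp ℂ) k w), T.res (σ : ℂ →+* ℂ) k w u = u

/-- The orbits of the automorphisms of `ℂ` over the algebraic numbers have less than continuum
many elements. -/
def SmallOrbits (T : MotTheory) (k w : ℤ) : Prop :=
  ∀ u : T.H (Sp ℂ) k w, Cardinal.mk (Set.range fun σ : ℂ ≃ₐ[Qbar ℂ] ℂ =>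
    T.res (σ : ℂ →+* ℂ) k w u) < Cardinal.continuum

/-- For all complex curves all classes over the function field are constant. -/
def CurvesConstant (T : MotTheory) (k w : ℤ) : Prop :=
  ∀ (E : Type) [Field E] [Algebra (RatFunc ℂ) E] [FiniteDimensional (RatFunc ℂ) E],
    Function.Surjective (T.res ((algebraMap (RatFunc ℂ) E).comp (algebraMap ℂ (RatFunc ℂ))) k w)

/-- There is an algebraically closed field `Ω` of infinite transcendence degree `τ` over `ℚ` such
that the classes over `Ω` modulo those over the algebraic numbers have dimension less than `τ`. -/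
def SmallSomewhere (T : MotTheory) (k w : ℤ) : Prop :=
  ∃ (Ω : Type) (_ : Field Ω) (_ : CharZero Ω), IsAlgClosed Ω ∧ Large Ω ∧
    Module.rank ℚ (NewClasses T (Qbar Ω) Ω k w) < Algebra.trdeg ℚ Ω

/-- There is a field `Ω` of infinite transcendence degree `τ` over `ℚ` such that the classes over
`Ω` modulo those over `ℚ` have dimension less than `τ`. -/
def SmallOverSomeField (T : MotTheory) (k w : ℤ) : Prop :=
  ∃ (Ω : Type) (_ : Field Ω) (_ : CharZero Ω), Large Ω ∧
    Module.rank ℚ (NewClasses T ℚ Ω k w) < Algebra.trdeg ℚ Ω

/-- All classes over `F(t)` come from `F`. -/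
def LineConstant (T : MotTheory) (F : Type) [Field F] [CharZero F] (k w : ℤ) : Prop :=
  Function.Surjective (T.res (algebraMap F (RatFunc F)) k w)

end Pool.Agent.Helper19.BS
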