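import Mathlib
import Pool.Agent.Helper19.BS.Defs
import Pool.Agent.Helper19.BS.Alg

set_option autoImplicit false

open AlgebraicGeometry CategoryTheory Polynomial TensorProduct

namespace Pool.Agent.Helper19.BS

theorem isSm_of_smooth (F A : Type) [Field F] [CharZero F] [CommRing A] [Algebra F A]
    [Algebra.Smooth F A] : IsSm (Sp A) := by
  refine ⟨F, inferInstance, inferInstance, Spec.map (CommRingCat.ofHom (algebraMap F A)), ?_,
    inferInstance, inferInstance⟩
  rw [HasRingHomProperty.Spec_iff (P := @Smooth)]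
  exact RingHom.smooth_algebraMap.2 inferInstance

theorem isSm_field (F : Type) [Field F] [CharZero F] : IsSm (Sp F) :=
  isSm_of_smooth F F

variable {T : MotTheory} (hT : IsMotivic T)

include hT

theorem res_id {A : Type} [CommRing A] (hA : IsSm (Sp A)) (i j : ℤ) (u : T.H (Sp A) i j) :
    T.res (RingHom.id A) i j u = u := by
  have h := hT.functoriality.1 (Sp A) i j hA
  have h1 : Spec.map (CommRingCat.ofHom (RingHom.id A)) = 𝟙 (Sp A) := by
    have : CommRingCat.ofHom (RingHom.id A) = 𝟙 (CommRingCat.of A) := rfl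
    rw [this, Spec.map_id]
  unfold MotTheory.res
  rw [h1, h]
  rfl

theorem res_comp {A B C : Type} [CommRing A] [CommRing B] [CommRing C] (hA : IsSm (Sp A))
    (hB : IsSm (Sp B)) (hC : IsSm (Sp C)) (f : A →+* B) (g : B →+* C) (i j : ℤ)
    (u : T.H (Sp A) i j) : T.res (g.comp f) i j u = T.res g i j (T.res f i j u) := by
  have h := hT.functoriality.2 (Sp C) (Sp B) (Sp A) (Spec.map (CommRingCat.ofHom g))
    (Spec.map (CommRingCat.ofHom f)) i j hC hB hA
  have h1 : Spec.map (CommRingCat.ofHom (g.comp f)) =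
      Spec.map (CommRingCat.ofHom g) ≫ Spec.map (CommRingCat.ofHom f) := by
    rw [CommRingCat.ofHom_comp, Spec.map_comp]
  unfold MotTheory.res
  rw [h1, h]
  rfl

/-- composite of maps of fields -/
theorem res_comp' {A B C : Type} [Field A] [CharZero A] [Field B] [CharZero B] [Field C]
    [CharZero C] (f : A →+* B) (g : B →+* C) (i j : ℤ)
    (u : T.H (Sp A) i j) : T.res (g.comp f) i j u = T.res g i j (T.res f i j u) :=
  res_comp hT (isSm_field A) (isSm_field B) (isSm_field C) f g i j u

theorem res_eq {A B C : Type} [CommRing A] [CommRing B] [CommRing C] (hA : IsSm (Sp A))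
    (hB : IsSm (Sp B)) (hC : IsSm (Sp C)) {f : A →+* B} {g : B →+* C} {h : A →+* C}
    (e : g.comp f = h) (i j : ℤ) (u : T.H (Sp A) i j) :
    T.res g i j (T.res f i j u) = T.res h i j u := by
  rw [← e, res_comp hT hA hB hC]

/-- **Evaluation.**  If a class on a smooth affine variety `A` over `k` and a class over an
extension `L` of `k` agree in a field containing `A ⊗ L`, then the latter comes from `k`. -/
theorem evaluate {k A L Ω : Type} [Field k] [CharZero k] [CommRing A] [IsDomain A] [Algebra k A]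
    [Algebra.Smooth k A] (hA : DensePoints k A) [Field L] [Algebra k L] [Field Ω] [Algebra k Ω]
    [Algebra L Ω] [IsScalarTower k L Ω] (τ : A →ₐ[k] Ω)
    (hinj : Function.Injective (both (L := L) τ)) (i j : ℤ) (u : T.H (Sp A) i j)
    (v : T.H (Sp L) i j)
    (h : T.res (τ : A →+* Ω) i j u = T.res (algebraMap L Ω) i j v) :
    ∃ c : T.H (Sp k) i j, T.res (algebraMap k L) i j c = v := by
  have hcL : CharZero L := charZero_of_injective_algebraMap (algebraMap k L).injective
  have hcΩ : CharZero Ω := charZero_of_injective_algebraMap (algebraMap k Ω).injective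
  have hdom : IsDomain (A ⊗[k] L) := isDomain_tensor hA
  let B := A ⊗[k] L
  let iA : A →+* B := (Algebra.TensorProduct.includeLeft (R := k) (S := k) (A := A)
    (B := L) : A →ₐ[k] A ⊗[k] L)
  let iL : L →+* B := (Algebra.TensorProduct.includeRight (R := k) (A := A) (B := L) :
    L →ₐ[k] A ⊗[k] L)
  let _ : Algebra L B := iL.toAlgebra
  have hsm : Algebra.Smooth L B := by
    let e : L ⊗[k] A ≃ₐ[L] B := AlgEquiv.ofRingEquiv
      (f := ((Algebra.TensorProduct.comm k L A : L ⊗[k] A ≃ₐ[k] A ⊗[k] L) :
        L ⊗[k] A ≃+* A ⊗[k] L)) (by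
        intro l
        show (Algebra.TensorProduct.comm k L A) (l ⊗ₜ[k] (1 : A)) = (1 : A) ⊗ₜ[k] l
        simp)
    exact Algebra.Smooth.of_equiv e
  let K := FractionRing B
  have hcK : CharZero K := by
    have : CharZero B := charZero_of_injective_ringHom (f := iL) iL.injective
    exact charZero_of_injective_algebraMap (IsFractionRing.injective B K)
  let κ : K →+* Ω := IsFractionRing.lift (A := B) (K := K)
    (g := ((both (L := L) τ : A ⊗[k] L →ₐ[k] Ω) : A ⊗[k] L →+* Ω)) hinj
  have hκ : κ.comp (algebraMap B K) = ((both (L := L) τ : A ⊗[k] L →ₐ[k] Ω) :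
      A ⊗[k] L →+* Ω) := by
    ext x <;> simp [κ]
  have smA : IsSm (Sp A) := isSm_of_smooth k A
  have smB : IsSm (Sp B) := isSm_of_smooth L B
  have smL : IsSm (Sp L) := isSm_field L
  have smK : IsSm (Sp K) := isSm_field K
  have smΩ : IsSm (Sp Ω) := isSm_field Ω
  have smk : IsSm (Sp k) := isSm_field k
  have e1 : T.res (algebraMap B K) i j (T.res iA i j u) =
      T.res (algebraMap B K) i j (T.res iL i j v) := by
    apply hT.res_injective κ
    rw [res_eq hT smB smK smΩ hκ, res_eq hT smB smK smΩ hκ]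
    rw [res_eq hT smA smB smΩ (h := (τ : A →+* Ω)) (by
      ext a
      show both τ (a ⊗ₜ[k] (1 : L)) = τ a
      rw [both_tmul, map_one, mul_one])]
    rw [res_eq hT smL smB smΩ (h := algebraMap L Ω) (by
      ext l
      show both τ ((1 : A) ⊗ₜ[k] l) = algebraMap L Ω l
      rw [both_tmul, map_one, one_mul])]
    exact h
  obtain ⟨s, hs, e2⟩ := hT.agree L B K i j _ _ e1
  obtain ⟨y, hy, -⟩ := exists_evPt_ne hA hs hs
  -- evaluate at `y`
  let Bs := Localization.Away s
  have smBs : IsSm (Sp Bs) := by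
    have h1 : Algebra.Smooth B Bs := Algebra.Smooth.of_isLocalization_Away s
    have h2 : Algebra.Smooth L Bs := Algebra.Smooth.comp L B Bs
    exact isSm_of_smooth L Bs
  let ev : B →+* L := ((evPt y : A ⊗[k] L →ₐ[k] L) : A ⊗[k] L →+* L)
  let evs : Bs →+* L := IsLocalization.Away.lift s (g := ev) (isUnit_iff_ne_zero.2 hy)
  have hevs : evs.comp (algebraMap B Bs) = ev := IsLocalization.Away.lift_comp s _
  have e3 := congrArg (T.res evs i j) e2
  rw [res_eq hT smB smBs smL hevs, res_eq hT smB smBs smL hevs] at e3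
  rw [res_eq hT smL smB smL (h := RingHom.id L) (by
    ext l
    show evPt y ((1 : A) ⊗ₜ[k] l) = l
    rw [evPt_tmul, map_one, map_one, one_mul]), res_id hT smL] at e3
  rw [res_eq hT smA smB smL (h := (algebraMap k L).comp (y : A →+* k)) (by
    ext a
    show evPt y (a ⊗ₜ[k] (1 : L)) = algebraMap k L (y a)
    rw [evPt_tmul, mul_one]), res_comp hT smA smk smL] at e3
  exact ⟨_, e3⟩

end Pool.Agent.Helper19.BS
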