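import Mathlib
import Pool.Agent.Helper19.BS.Alg

set_option autoImplicit false

open Cardinal TensorProduct

namespace Pool.Agent.Helper19.BS

/-- Disjoint blocks of the same finite size. -/
theorem exists_blocks (B : Type) [Infinite B] (r : ℕ) :
    ∃ β : B → Fin r → B, (∀ x, Function.Injective (β x)) ∧
      ∀ x y, x ≠ y → ∀ i j, β x i ≠ β y j := by
  have h : #(B × Fin r) ≤ #B := by
    rw [mk_prod, lift_id, lift_id]
    have h1 : ℵ₀ ≤ #B := aleph0_le_mk B
    refine (mul_le_mul' le_rfl ((mk_le_aleph0 (α := Fin r)).trans h1)).trans ?_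
    rw [mul_eq_self h1]
  obtain ⟨f⟩ := h
  refine ⟨fun x i => f (x, i), ?_, ?_⟩
  · intro x i j hij
    have := f.injective hij
    exact (Prod.mk.inj this).2
  · intro x y hxy i j hij
    have := f.injective hij
    exact hxy (Prod.mk.inj this).1

section

variable (k : Type) {Ω : Type} [Field k] [Field Ω] [Algebra k Ω]

theorem exists_clos (S : Set Ω) : ∃ L : IntermediateField k Ω,
    L = (algebraicClosure (IntermediateField.adjoin k S) Ω).restrictScalars k := ⟨_, rfl⟩

/-- The algebraic closure in `Ω` of the subfield generated over `k` by `S`. (The definition is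
made opaque with `Classical.choose` only for reasons of efficiency.) -/
noncomputable def clos (S : Set Ω) : IntermediateField k Ω :=
  Classical.choose (exists_clos k S)

theorem clos_eq (S : Set Ω) :
    clos k S = (algebraicClosure (IntermediateField.adjoin k S) Ω).restrictScalars k :=
  Classical.choose_spec (exists_clos k S)

theorem mem_clos (S : Set Ω) (z : Ω) :
    z ∈ clos k S ↔ IsAlgebraic (IntermediateField.adjoin k S) z := by
  rw [clos_eq]
  show z ∈ algebraicClosure (IntermediateField.adjoin k S) Ω ↔ _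
  exact mem_algebraicClosure_iff

theorem isAlgClosed_clos [IsAlgClosed Ω] (S : Set Ω) : IsAlgClosed (clos k S) := by
  rw [clos_eq]
  exact (inferInstance : IsAlgClosure (IntermediateField.adjoin k S)
    (algebraicClosure (IntermediateField.adjoin k S) Ω)).isAlgClosed

theorem subset_clos (S : Set Ω) : S ⊆ (clos k S : Set Ω) := by
  intro z hz
  show z ∈ clos k S
  rw [mem_clos]
  exact isAlgebraic_algebraMap
    (⟨z, IntermediateField.subset_adjoin k S hz⟩ : IntermediateField.adjoin k S)

theorem adjoin_le_clos (S : Set Ω) : IntermediateField.adjoin k S ≤ clos k S := by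
  rw [IntermediateField.adjoin_le_iff]
  exact subset_clos k S

theorem clos_mono {S T : Set Ω} (h : S ⊆ T) : clos k S ≤ clos k T := by
  intro z hz
  rw [mem_clos] at hz ⊢
  let _ : Algebra (IntermediateField.adjoin k S) (IntermediateField.adjoin k T) :=
    (IntermediateField.inclusion (IntermediateField.adjoin.mono k S T h)).toAlgebra
  have : IsScalarTower (IntermediateField.adjoin k S) (IntermediateField.adjoin k T) Ω :=
    IsScalarTower.of_algebraMap_eq fun x => rfl
  exact hz.extendScalars (FaithfulSMul.algebraMap_injective _ _)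

theorem indep_clos {I : Type} (b : I → Ω) (hb : AlgebraicIndependent k b) {r : ℕ}
    (β : Fin r → I) (hβ : Function.Injective β) :
    AlgebraicIndependent (clos k (b '' (Set.range β)ᶜ)) (fun i => b (β i)) := by
  have h1 : AlgebraicIndependent (Algebra.adjoin k (b '' (Set.range β)ᶜ))
      (fun i : (Set.range β : Set I) => b i) :=
    hb.adjoin_of_disjoint disjoint_compl_left
  have h2 : AlgebraicIndependent (Algebra.adjoin k (b '' (Set.range β)ᶜ))
      (fun i => b (β i)) := by
    have := h1.comp (fun i : Fin r => (⟨β i, i, rfl⟩ : (Set.range β : Set I)))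
      (fun i j hij => hβ (congrArg Subtype.val hij))
    exact this
  have h3 := (IntermediateField.algebraicIndependent_adjoin_iff (F := k)
    (s := b '' (Set.range β)ᶜ) (x := fun i => b (β i))).2 h2
  rw [clos_eq]
  exact AlgebraicIndependent.algebraicClosure h3

/-- images of algebraic elements under automorphisms -/
theorem map_mem_clos (σ : Ω ≃ₐ[k] Ω) (S T : Set Ω) (h : ∀ s ∈ S, σ s ∈ T) {z : Ω}
    (hz : z ∈ clos k S) : σ z ∈ clos k T := by
  rw [mem_clos] at hz
  have h0 : IntermediateField.adjoin k (σ '' S) ≤ IntermediateField.adjoin k T := by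
    apply IntermediateField.adjoin.mono
    rintro _ ⟨s, hs, rfl⟩
    exact h s hs
  have h1 : σ z ∈ clos k (σ '' S) := by
    rw [mem_clos]
    -- transport the polynomial
    let e : IntermediateField.adjoin k S →+* IntermediateField.adjoin k (σ '' S) :=
      { toFun := fun x => ⟨σ x, by
          rw [show (σ '' S) = ((σ : Ω →ₐ[k] Ω) '' S) from rfl, ← IntermediateField.adjoin_map]
          exact ⟨x, x.2, rfl⟩⟩
        map_one' := Subtype.ext (map_one σ)
        map_mul' := fun x y => Subtype.ext (map_mul σ _ _)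
        map_zero' := Subtype.ext (map_zero σ)
        map_add' := fun x y => Subtype.ext (map_add σ _ _) }
    obtain ⟨p, hp0, hp⟩ := hz
    refine ⟨p.map e, (Polynomial.map_ne_zero_iff e.injective).2 hp0, ?_⟩
    rw [Polynomial.aeval_def, Polynomial.eval₂_map]
    have h2 : (algebraMap (IntermediateField.adjoin k (σ '' S)) Ω).comp e =
        (σ : Ω →+* Ω).comp (algebraMap (IntermediateField.adjoin k S) Ω) := by
      ext x; rfl
    rw [h2]
    have h3 := Polynomial.hom_eval₂ p (algebraMap (IntermediateField.adjoin k S) Ω)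
      (σ : Ω →+* Ω) z
    have h4 : Polynomial.eval₂ (algebraMap (IntermediateField.adjoin k S) Ω) z p = 0 := hp
    rw [h4, map_zero] at h3
    exact h3.symm
  have h5 : σ '' S ⊆ T := by
    rintro _ ⟨s, hs, rfl⟩
    exact h s hs
  exact clos_mono k h5 h1

/-- Automorphisms moving a finite part of a transcendence basis to disjoint parts. -/
theorem exists_auts [IsAlgClosed Ω] {B : Type} [Infinite B] (b : B → Ω)
    (hb : IsTranscendenceBasis k b) {r : ℕ} (β₀ : Fin r → B) (hβ₀ : Function.Injective β₀) :
    ∃ (σ : B → Ω ≃ₐ[k] Ω) (L : B → IntermediateField k Ω),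
      (∀ x, AlgebraicIndependent (L x) (fun i => σ x (b (β₀ i)))) ∧
      (∀ x y, y ≠ x → ∀ z ∈ clos k (Set.range fun i => b (β₀ i)), σ y z ∈ L x) := by
  obtain ⟨β, hβ, hdis⟩ := exists_blocks B r
  have h1 : ∀ x, ∃ σ : Ω ≃ₐ[k] Ω, ∀ i, σ (b (β₀ i)) = b (β x i) := by
    intro x
    obtain ⟨g, hg⟩ := Equiv.Perm.exists_extending_pair β₀ (β x) hβ₀ (hβ x)
    obtain ⟨σ, hσ⟩ := exists_aut b (b ∘ g) hb (hb.comp_equiv g)
    exact ⟨σ, fun i => by rw [hσ, Function.comp_apply, hg]⟩
  choose σ hσ using h1
  refine ⟨σ, fun x => clos k (b '' (Set.range (β x))ᶜ), ?_, ?_⟩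
  · intro x
    have := indep_clos k b hb.1 (β x) (hβ x)
    simpa only [hσ] using this
  · intro x y hyx z hz
    refine map_mem_clos k (σ y) _ _ ?_ hz
    rintro _ ⟨i, rfl⟩
    rw [hσ]
    refine ⟨β y i, ?_, rfl⟩
    rintro ⟨j, hj⟩
    exact hdis x y (Ne.symm hyx) j i hj

end

end Pool.Agent.Helper19.BS
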