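import Mathlib
import Pool.Agent.Helper19.BS.Core
import Pool.Agent.Helper19.BS.Model
import Pool.Agent.Helper19.BS.Family

set_option autoImplicit false

open AlgebraicGeometry CategoryTheory Polynomial TensorProduct Cardinal

namespace Pool.Agent.Helper19.BS

theorem isAlgebraic_of_map {k A Ω I : Type} [Field k] [CommRing A] [Algebra k A] [Field Ω]
    [Algebra k Ω] (ι : A →ₐ[k] Ω) (hι : Function.Injective ι) (t : I → A) (a : A)
    (h : IsAlgebraic (Algebra.adjoin k (Set.range fun i => ι (t i))) (ι a)) :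
    IsAlgebraic (Algebra.adjoin k (Set.range t)) a := by
  have hmap : (Algebra.adjoin k (Set.range t)).map ι =
      Algebra.adjoin k (Set.range fun i => ι (t i)) := by
    rw [AlgHom.map_adjoin]
    congr 1
    rw [← Set.range_comp]
    rfl
  let f : Algebra.adjoin k (Set.range t) →+*
      Algebra.adjoin k (Set.range fun i => ι (t i)) :=
    { toFun := fun x => ⟨ι x, by rw [← hmap]; exact ⟨x, x.2, rfl⟩⟩
      map_one' := Subtype.ext (map_one ι)
      map_mul' := fun x y => Subtype.ext (map_mul ι _ _)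
      map_zero' := Subtype.ext (map_zero ι)
      map_add' := fun x y => Subtype.ext (map_add ι _ _) }
  have hf : Function.Surjective f := by
    rintro ⟨y, hy⟩
    rw [← hmap] at hy
    obtain ⟨x, hx, hxy⟩ := hy
    exact ⟨⟨x, hx⟩, Subtype.ext hxy⟩
  refine IsAlgebraic.of_ringHom_of_comp_eq (f := f) (g := (ι : A →+* Ω)) h hf hι ?_
  ext x
  rfl

/-- A finite set of generators contains a finite transcendence basis. -/
theorem exists_basis {k Ω : Type} [Field k] [Field Ω] [Algebra k Ω] (G : Finset Ω) :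
    ∃ (B : Set Ω) (r : ℕ) (β₀ : Fin r → B), IsTranscendenceBasis k ((↑) : B → Ω) ∧
      Function.Injective β₀ ∧ (∀ i, (β₀ i : Ω) ∈ G) ∧
      ∀ g ∈ G, g ∈ clos k (Set.range fun i => (β₀ i : Ω)) := by
  classical
  obtain ⟨t, -, hmax⟩ := exists_maximal_algebraicIndependent (R := k) (∅ : Set Ω) (G : Set Ω)
    (Set.empty_subset _) ((algebraicIndependent_empty_iff k Ω).2 (algebraMap k Ω).injective)
  obtain ⟨⟨hind, htG⟩, hm⟩ := hmax
  obtain ⟨B, htB, hB⟩ := exists_isTranscendenceBasis_superset hind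
  have hfin : t.Finite := G.finite_toSet.subset htG
  have := hfin.fintype
  let e : Fin (Fintype.card t) ≃ t := (Fintype.equivFin t).symm
  refine ⟨B, Fintype.card t, fun i => ⟨(e i : Ω), htB (e i).2⟩, hB, ?_, ?_, ?_⟩
  · intro i j hij
    apply e.injective
    exact Subtype.ext (congrArg (fun z : B => (z : Ω)) hij)
  · intro i
    exact htG (e i).2
  · intro g hg
    have hr : (Set.range fun i => ((⟨(e i : Ω), htB (e i).2⟩ : B) : Ω)) = t := by
      ext y
      constructor
      · rintro ⟨i, rfl⟩; exact (e i).2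
      · intro hy; exact ⟨e.symm ⟨y, hy⟩, by simp⟩
    rw [hr, mem_clos]
    by_contra htr
    have htr' : Transcendental (Algebra.adjoin k (id '' t)) (id g) := by
      rw [Set.image_id]
      exact fun h => htr ((IntermediateField.isAlgebraic_adjoin_iff).2 h)
    have h1 := AlgebraicIndepOn.insert hind htr'
    have h2 := hm (y := insert g t) ⟨h1, by
      rintro y (rfl | hy)
      · exact hg
      · exact htG hy⟩ (Set.subset_insert _ _)
    apply htr
    have hgt : g ∈ t := h2 (Set.mem_insert _ _)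
    exact isAlgebraic_algebraMap
      (⟨g, IntermediateField.subset_adjoin k t hgt⟩ : IntermediateField.adjoin k t)

variable {T : MotTheory} (hT : IsMotivic T)

include hT

/-- The basic family: for every class `u` over `Ω` there are automorphisms `σ x` of `Ω` and
subfields `L x` such that `σ y u` comes from `L x` for all `y ≠ x` and such that `u` comes from
`k` as soon as `σ x u` comes from `L x`. -/
theorem family {k Ω : Type} [Field k] [CharZero k] [IsAlgClosed k] [Field Ω] [IsAlgClosed Ω]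
    [Algebra k Ω] (hinf : ℵ₀ ≤ Algebra.trdeg k Ω) (i j : ℤ) (u : T.H (Sp Ω) i j) :
    ∃ (B : Type) (σ : B → Ω ≃ₐ[k] Ω) (L : B → IntermediateField k Ω), #B = Algebra.trdeg k Ω ∧
      (∀ x y, y ≠ x → T.res ((σ y : Ω ≃ₐ[k] Ω) : Ω →+* Ω) i j u ∈
        LinearMap.range (T.res (algebraMap (L x) Ω) i j)) ∧
      (∀ x, T.res ((σ x : Ω ≃ₐ[k] Ω) : Ω →+* Ω) i j u ∈
        LinearMap.range (T.res (algebraMap (L x) Ω) i j) →
        u ∈ LinearMap.range (T.res (algebraMap k Ω) i j)) := by
  classical
  have hcΩ : CharZero Ω := charZero_of_injective_algebraMap (algebraMap k Ω).injective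
  obtain ⟨F, hF, b, hb⟩ := hT.continuity Ω i j u
  obtain ⟨G, hG⟩ := hF
  let E := IntermediateField.adjoin k (G : Set Ω)
  have hcE : CharZero E := charZero_of_injective_algebraMap (algebraMap k E).injective
  -- the class over `E`
  have hFE : ∀ z : F, (z : Ω) ∈ E := by
    intro z
    have h1 : F ≤ (IntermediateField.restrictScalars ℚ E) := by
      rw [← hG, IntermediateField.adjoin_le_iff]
      intro g hg
      exact IntermediateField.subset_adjoin k (G : Set Ω) hg
    exact h1 z.2
  let ι : F →+* E :=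
    { toFun := fun z => ⟨z, hFE z⟩
      map_one' := rfl
      map_mul' := fun _ _ => rfl
      map_zero' := rfl
      map_add' := fun _ _ => rfl }
  let uE := T.res ι i j b
  have huE : T.res (algebraMap E Ω) i j uE = u := by
    rw [← hb]
    exact res_eq hT (isSm_field F) (isSm_field E) (isSm_field Ω) (RingHom.ext fun _ => rfl) i j b
  obtain ⟨A, _, _, _, _, τ, hτ, hGA, u', hu'⟩ := exists_model hT G i j uE
  obtain ⟨B, r, β₀, hB, hβ₀, hβG, hGc⟩ := exists_basis (k := k) G
  have hBinf : Infinite B := by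
    rw [Cardinal.infinite_iff, hB.cardinalMk_eq_trdeg]
    exact hinf
  obtain ⟨σ, L, hind, hmem⟩ := exists_auts k ((↑) : B → Ω) hB β₀ hβ₀
  have hE : E ≤ clos k (Set.range fun i => (β₀ i : Ω)) := by
    rw [IntermediateField.adjoin_le_iff]
    intro g hg
    exact hGc g hg
  refine ⟨B, σ, L, hB.cardinalMk_eq_trdeg, ?_, ?_⟩
  · intro x y hyx
    have hcL : CharZero (L x) := charZero_of_injective_algebraMap (algebraMap k (L x)).injective
    let e : E →+* L x :=
      { toFun := fun z => ⟨σ y z, hmem x y hyx z (hE z.2)⟩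
        map_one' := Subtype.ext (map_one (σ y))
        map_mul' := fun _ _ => Subtype.ext (map_mul (σ y) _ _)
        map_zero' := Subtype.ext (map_zero (σ y))
        map_add' := fun _ _ => Subtype.ext (map_add (σ y) _ _) }
    refine ⟨T.res e i j uE, ?_⟩
    rw [← huE]
    exact (res_comp' hT e (algebraMap (L x) Ω) i j uE).symm.trans
      (res_comp' hT (algebraMap E Ω) ((σ y : Ω ≃ₐ[k] Ω) : Ω →+* Ω) i j uE)
  · intro x hx
    obtain ⟨v, hv⟩ := hx
    let τx : A →ₐ[k] Ω := ((σ x : Ω ≃ₐ[k] Ω) : Ω →ₐ[k] Ω).comp ((E.val).comp τ)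
    have hτx : Function.Injective τx :=
      (σ x).injective.comp (Subtype.val_injective.comp hτ)
    have hdens : DensePoints k A := densePoints_of_isAlgClosed k A
    have hdom : IsDomain (A ⊗[k] (L x)) := isDomain_tensor hdens
    choose t ht using fun i => hGA (β₀ i) (hβG i)
    have hinj : Function.Injective (both (L := L x) τx) := by
      refine both_injective τx hτx t ?_ ?_ hdom
      · intro a
        refine isAlgebraic_of_map ((E.val).comp τ) (Subtype.val_injective.comp hτ) t a ?_
        have h1 : ((E.val).comp τ) a ∈ clos k (Set.range fun i => (β₀ i : Ω)) := hE (τ a).2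
        rw [mem_clos, IntermediateField.isAlgebraic_adjoin_iff] at h1
        have h2 : (fun i => ((E.val).comp τ) (t i)) = fun i => (β₀ i : Ω) := funext ht
        rw [h2]
        exact h1
      · have h2 : (fun i => τx (t i)) = fun i => σ x (β₀ i : Ω) := by
          funext i
          show σ x ((τ (t i) : E) : Ω) = _
          rw [ht]
        rw [h2]
        exact hind x
    have hcL : CharZero (L x) := charZero_of_injective_algebraMap (algebraMap k (L x)).injective
    have smA : IsSm (Sp A) := isSm_of_smooth k A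
    have hkey : T.res (τx : A →+* Ω) i j u' = T.res (algebraMap (L x) Ω) i j v := by
      rw [hv, ← huE, ← hu']
      rw [← res_comp hT smA (isSm_field E) (isSm_field Ω),
        ← res_comp hT smA (isSm_field Ω) (isSm_field Ω)]
      rfl
    obtain ⟨c, hc⟩ := evaluate hT hdens τx hinj i j u' v hkey
    refine ⟨c, ?_⟩
    -- go back by `σ x`
    apply hT.res_injective ((σ x : Ω ≃ₐ[k] Ω) : Ω →+* Ω)
    have hhom : ((σ x : Ω ≃ₐ[k] Ω) : Ω →+* Ω).comp (algebraMap k Ω) =
        (algebraMap (L x) Ω).comp (algebraMap k (L x)) := by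
      ext z
      show σ x (algebraMap k Ω z) = _
      rw [AlgEquiv.commutes]
      rfl
    rw [← hv, ← hc, ← res_comp' hT, ← res_comp' hT, hhom]

/-- If the cokernel of `H(k) → H(Ω)` is small then `H(k) → H(Ω)` is surjective. -/
theorem surj_of_small {k Ω : Type} [Field k] [CharZero k] [IsAlgClosed k] [Field Ω]
    [IsAlgClosed Ω] [Algebra k Ω] (hinf : ℵ₀ ≤ Algebra.trdeg k Ω) (i j : ℤ)
    (hsmall : Module.rank ℚ (T.H (Sp Ω) i j ⧸ LinearMap.range (T.res (algebraMap k Ω) i j)) <
      Algebra.trdeg k Ω) : Function.Surjective (T.res (algebraMap k Ω) i j) := by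
  classical
  intro u
  obtain ⟨B, σ, L, hB, h1, h2⟩ := family hT hinf i j u
  by_contra hcon
  have hnot : ∀ x, T.res ((σ x : Ω ≃ₐ[k] Ω) : Ω →+* Ω) i j u ∉
      LinearMap.range (T.res (algebraMap (L x) Ω) i j) := by
    intro x hx
    exact hcon (h2 x hx)
  let N := LinearMap.range (T.res (algebraMap k Ω) i j)
  let w : B → (T.H (Sp Ω) i j ⧸ N) := fun x => N.mkQ (T.res ((σ x : Ω ≃ₐ[k] Ω) : Ω →+* Ω) i j u)
  have hw : LinearIndependent ℚ w := by
    rw [linearIndependent_iff']
    intro s g hg x hx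
    by_contra hgx
    apply hnot x
    have h3 : N.mkQ (∑ y ∈ s, g y • T.res ((σ y : Ω ≃ₐ[k] Ω) : Ω →+* Ω) i j u) = 0 := by
      rw [map_sum]
      simpa only [map_smul] using hg
    have h4 : (∑ y ∈ s, g y • T.res ((σ y : Ω ≃ₐ[k] Ω) : Ω →+* Ω) i j u) ∈ N := by
      rwa [Submodule.mkQ_apply, Submodule.Quotient.mk_eq_zero] at h3
    have hNL : N ≤ LinearMap.range (T.res (algebraMap (L x) Ω) i j) := by
      rintro _ ⟨c, rfl⟩
      have hcL : CharZero (L x) :=
        charZero_of_injective_algebraMap (algebraMap k (L x)).injective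
      have hcΩ : CharZero Ω := charZero_of_injective_algebraMap (algebraMap k Ω).injective
      refine ⟨T.res (algebraMap k (L x)) i j c, ?_⟩
      rw [← res_comp' hT]
      rfl
    have h5 := hNL h4
    rw [← Finset.add_sum_erase s _ hx] at h5
    have h6 : (∑ y ∈ s.erase x, g y • T.res ((σ y : Ω ≃ₐ[k] Ω) : Ω →+* Ω) i j u) ∈
        LinearMap.range (T.res (algebraMap (L x) Ω) i j) :=
      Submodule.sum_mem _ fun y hy => Submodule.smul_mem _ _ (h1 x y (Finset.ne_of_mem_erase hy))
    have h7 := Submodule.sub_mem _ h5 h6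
    rw [add_sub_cancel_right] at h7
    have h8 := Submodule.smul_mem _ (g x)⁻¹ h7
    rwa [smul_smul, inv_mul_cancel₀ hgx, one_smul] at h8
  have h9 := hw.cardinal_le_rank
  rw [hB] at h9
  exact absurd hsmall (not_lt.2 h9)

/-- If the orbits of `Aut(Ω/k)` on `H(Ω)` are small then `H(k) → H(Ω)` is surjective. -/
theorem surj_of_orbits {k Ω : Type} [Field k] [CharZero k] [IsAlgClosed k] [Field Ω]
    [IsAlgClosed Ω] [Algebra k Ω] (hinf : ℵ₀ ≤ Algebra.trdeg k Ω) (i j : ℤ)
    (hsmall : ∀ u : T.H (Sp Ω) i j, #(Set.range fun σ : Ω ≃ₐ[k] Ω =>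
      T.res (σ : Ω →+* Ω) i j u) < Algebra.trdeg k Ω) :
    Function.Surjective (T.res (algebraMap k Ω) i j) := by
  intro u
  obtain ⟨B, σ, L, hB, h1, h2⟩ := family hT hinf i j u
  have hlt := hsmall u
  rw [← hB] at hlt
  let f : B → Set.range (fun σ : Ω ≃ₐ[k] Ω => T.res (σ : Ω →+* Ω) i j u) :=
    fun x => ⟨_, σ x, rfl⟩
  have hninj : ¬ Function.Injective f := fun h => absurd (Cardinal.mk_le_of_injective h)
    (not_le.2 hlt)
  rw [Function.not_injective_iff] at hninj
  obtain ⟨x, y, hxy, hne⟩ := hninj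
  have h3 : T.res ((σ x : Ω ≃ₐ[k] Ω) : Ω →+* Ω) i j u =
      T.res ((σ y : Ω ≃ₐ[k] Ω) : Ω →+* Ω) i j u := congrArg Subtype.val hxy
  apply h2 x
  rw [h3]
  exact h1 x y (Ne.symm hne)

end Pool.Agent.Helper19.BS
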