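import Mathlib
import Pool.Agent.Helper19.BS.Embed

set_option autoImplicit false

open AlgebraicGeometry CategoryTheory Polynomial TensorProduct Cardinal

namespace Pool.Agent.Helper19.BS

/-- the inclusion of two intermediate fields -/
def inc {k Ω : Type} [Field k] [Field Ω] [Algebra k Ω] {L L' : IntermediateField k Ω}
    (h : L ≤ L') : L →+* L' :=
  (IntermediateField.inclusion h : L →ₐ[k] L')

theorem inc_coe {k Ω : Type} [Field k] [Field Ω] [Algebra k Ω] {L L' : IntermediateField k Ω}
    (h : L ≤ L') (z : L) : ((inc h z : L') : Ω) = z := rfl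

theorem inc_inc {k Ω : Type} [Field k] [Field Ω] [Algebra k Ω] {L L' L'' : IntermediateField k Ω}
    (h1 : L ≤ L') (h2 : L' ≤ L'') (h : L ≤ L'') (z : L) : inc h2 (inc h1 z) = inc h z := rfl

theorem inc_refl {k Ω : Type} [Field k] [Field Ω] [Algebra k Ω] {L : IntermediateField k Ω}
    (h : L ≤ L) : inc h = RingHom.id L := rfl

theorem algebraMap_inc {k Ω : Type} [Field k] [Field Ω] [Algebra k Ω]
    {L L' : IntermediateField k Ω} (h : L ≤ L') (z : L) :
    algebraMap L' Ω (inc h z) = algebraMap L Ω z := rfl

/-- the inclusion of two intermediate fields over different base fields -/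
def inc' {k k' Ω : Type} [Field k] [Field k'] [Field Ω] [Algebra k Ω] [Algebra k' Ω]
    (F : IntermediateField k Ω) (L : IntermediateField k' Ω) (h : ∀ z : F, (z : Ω) ∈ L) :
    F →+* L :=
  { toFun := fun z => ⟨z, h z⟩
    map_one' := rfl
    map_mul' := fun _ _ => rfl
    map_zero' := rfl
    map_add' := fun _ _ => rfl }

theorem algebraMap_inc' {k k' Ω : Type} [Field k] [Field k'] [Field Ω] [Algebra k Ω]
    [Algebra k' Ω] (F : IntermediateField k Ω) (L : IntermediateField k' Ω)
    (h : ∀ z : F, (z : Ω) ∈ L) (z : F) : algebraMap L Ω (inc' F L h z) = algebraMap F Ω z := rfl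

theorem mem_clos_of_adjoin {k₀ k Ω : Type} [Field k₀] [Field k] [Field Ω] [Algebra k₀ Ω]
    [Algebra k Ω] (S S' : Set Ω)
    (h : ∀ y ∈ IntermediateField.adjoin k₀ S, y ∈ IntermediateField.adjoin k S') (z : Ω)
    (hz : z ∈ clos k₀ S) : z ∈ clos k S' := by
  rw [mem_clos] at hz ⊢
  let f : IntermediateField.adjoin k₀ S →+* IntermediateField.adjoin k S' :=
    { toFun := fun y => ⟨y, h y y.2⟩
      map_one' := rfl
      map_mul' := fun _ _ => rfl
      map_zero' := rfl
      map_add' := fun _ _ => rfl }
  exact IsAlgebraic.ringHom_of_comp_eq f (RingHom.id Ω) hz f.injective (RingHom.ext fun _ => rfl)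

theorem mem_of_adjoin {K M : Type} [Field K] [Field M] [CharZero M] [Algebra K M] (G : Set M)
    (E : IntermediateField K M) (hG : G ⊆ E) (z : M) (hz : z ∈ IntermediateField.adjoin ℚ G) :
    z ∈ E := by
  have h : IntermediateField.adjoin ℚ G ≤ E.toSubfield.toIntermediateField (K := ℚ) (by
      intro q
      rw [eq_ratCast]
      exact SubfieldClass.ratCast_mem E.toSubfield q) := by
    rw [IntermediateField.adjoin_le_iff]
    exact hG
  exact h hz

theorem clos_insert_le {Ω : Type} [Field Ω] [CharZero Ω] (S : Set Ω) (x : Ω) (z : Ω)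
    (hz : z ∈ clos ℚ (insert x S)) :
    z ∈ clos (clos ℚ S) (Set.range fun _ : Fin 1 => x) := by
  refine mem_clos_of_adjoin _ _ ?_ z hz
  intro y hy
  refine mem_of_adjoin (insert x S) _ ?_ y hy
  rintro y (rfl | hy)
  · exact IntermediateField.subset_adjoin _ _ ⟨0, rfl⟩
  · exact IntermediateField.algebraMap_mem
      (IntermediateField.adjoin (clos ℚ S) (Set.range fun _ : Fin 1 => x))
      (⟨y, subset_clos ℚ S hy⟩ : clos ℚ S)

variable {T : MotTheory} (hT : IsMotivic T)

include hT

/-- Surjectivity onto a smaller field. -/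
theorem surj_of_factor {k L K : Type} [Field k] [CharZero k] [Field L] [CharZero L] [Field K]
    [CharZero K] (f : k →+* L) (ι : L →+* K) (g : k →+* K) (hfg : ∀ x, ι (f x) = g x) (i j : ℤ)
    (h : Function.Surjective (T.res g i j)) : Function.Surjective (T.res f i j) := by
  intro u
  obtain ⟨c, hc⟩ := h (T.res ι i j u)
  refine ⟨c, ?_⟩
  apply hT.res_injective ι
  rw [← hc]
  exact res_eq hT (isSm_field k) (isSm_field L) (isSm_field K) (RingHom.ext hfg) i j c

theorem surj_of_comp {k L K : Type} [Field k] [CharZero k] [Field L] [CharZero L] [Field K]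
    [CharZero K] (f : k →+* L) (ι : L →+* K) (g : k →+* K) (hfg : ∀ x, ι (f x) = g x) (i j : ℤ)
    (h1 : Function.Surjective (T.res f i j)) (h2 : Function.Surjective (T.res ι i j)) :
    Function.Surjective (T.res g i j) := by
  intro u
  obtain ⟨v, hv⟩ := h2 u
  obtain ⟨c, hc⟩ := h1 v
  refine ⟨c, ?_⟩
  rw [← hv, ← hc]
  exact (res_eq hT (isSm_field k) (isSm_field L) (isSm_field K) (RingHom.ext hfg) i j c).symm

/-- One step of the chain. -/
theorem surj_step {k C M Ω : Type} [Field k] [CharZero k] [IsAlgClosed k]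
    [Field Ω] [Algebra k Ω] [Field C] [Algebra k C] [Field M] [IsAlgClosed M] [Algebra C M]
    (X : M) (hX : Transcendental C X) (i j : ℤ)
    (h : Function.Surjective (T.res (algebraMap C M) i j)) (x : Ω) :
    Function.Surjective
      (T.res (algebraMap k (clos k (Set.range fun _ : Fin 1 => x))) i j) := by
  by_cases hx : IsAlgebraic k x
  · have hcK : CharZero (clos k (Set.range fun _ : Fin 1 => x)) :=
      charZero_of_injective_algebraMap (algebraMap k _).injective
    apply surj_of_bijective hT
    refine ⟨(algebraMap k _).injective, ?_⟩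
    rintro ⟨z, hz⟩
    have hz2 : IsAlgebraic k z := by
      rw [mem_clos] at hz
      have halg : Algebra.IsAlgebraic k (IntermediateField.adjoin k
          (Set.range fun _ : Fin 1 => x)) := by
        apply IntermediateField.isAlgebraic_adjoin
        rintro _ ⟨_, rfl⟩
        exact hx.isIntegral
      exact hz.restrictScalars k
    have hb : Function.Surjective (algebraMap k (IntermediateField.adjoin k {z})) := by
      have h2 : Algebra.IsAlgebraic k (IntermediateField.adjoin k {z}) := by
        apply IntermediateField.isAlgebraic_adjoin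
        rintro _ rfl
        exact hz2.isIntegral
      have h3 : Algebra.IsIntegral k (IntermediateField.adjoin k {z}) := inferInstance
      exact IsAlgClosed.algebraMap_bijective_of_isIntegral.2
    obtain ⟨c, hc⟩ := hb ⟨z, IntermediateField.subset_adjoin k _ rfl⟩
    have hc' := congrArg (fun w : IntermediateField.adjoin k {z} => (w : Ω)) hc
    exact ⟨c, Subtype.ext hc'⟩
  · exact surj_curve hT (C := C) (M := M) X hX x hx i j h

/-- One step of the chain for subfields. -/
theorem surj_step' {k L Ω M C : Type} [Field k] [CharZero k] [IsAlgClosed k] [Field L] [CharZero L]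
    [Field Ω] [Algebra k Ω] [Field C] [Field M] [IsAlgClosed M] [Algebra C M] (ψ : k →+* C) (X : M)
    (hX : Transcendental C X) (i j : ℤ)
    (h : Function.Surjective (T.res (algebraMap C M) i j)) (x : Ω)
    (f : k →+* L) (g : L →+* Ω) (hfg : ∀ z, g (f z) = algebraMap k Ω z)
    (hL : ∀ z, g z ∈ clos k (Set.range fun _ : Fin 1 => x)) :
    Function.Surjective (T.res f i j) := by
  let _ : Algebra k C := ψ.toAlgebra
  have h1 := surj_step hT (k := k) (C := C) (M := M) X hX i j h x
  let K := clos k (Set.range fun _ : Fin 1 => x)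
  have hcK : CharZero K := charZero_of_injective_algebraMap (algebraMap k K).injective
  let ι : L →+* K :=
    { toFun := fun z => ⟨g z, hL z⟩
      map_one' := Subtype.ext (map_one g)
      map_mul' := fun _ _ => Subtype.ext (map_mul g _ _)
      map_zero' := Subtype.ext (map_zero g)
      map_add' := fun _ _ => Subtype.ext (map_add g _ _) }
  exact surj_of_factor hT f ι (algebraMap k K) (fun z => Subtype.ext (hfg z)) i j h1

/-- The chain argument. -/
theorem surj_chain {Ω M C : Type} [Field Ω] [CharZero Ω] [IsAlgClosed Ω] [Field C] [Field M]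
    [IsAlgClosed M] [Algebra C M] (φ : Ω →+* C) (X : M) (hX : Transcendental C X) (i j : ℤ)
    (h : Function.Surjective (T.res (algebraMap C M) i j)) (S : Set Ω) (hS : S.Finite) :
    Function.Surjective (T.res (inc (clos_mono ℚ (Set.empty_subset S))) i j) := by
  induction S, hS using Set.Finite.induction_on with
  | empty =>
    intro u
    refine ⟨u, ?_⟩
    rw [inc_refl, res_id hT (isSm_field _)]
  | @insert x S _ _ ih =>
    have hk : IsAlgClosed (clos ℚ S) := isAlgClosed_clos ℚ S
    have h2 : Function.Surjective (T.res (inc (clos_mono ℚ (Set.subset_insert x S))) i j) :=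
      surj_step' hT (φ.comp (algebraMap (clos ℚ S) Ω)) X hX i j h x
        (inc (clos_mono ℚ (Set.subset_insert x S))) (algebraMap (clos ℚ (insert x S)) Ω)
        (fun z => algebraMap_inc _ z) (fun z => clos_insert_le S x z z.2)
    exact surj_of_comp hT _ _ _ (fun z => inc_inc _ _ _ z) i j ih h2

theorem surj_of_comp_right {k L K : Type} [Field k] [CharZero k] [Field L] [CharZero L] [Field K]
    [CharZero K] (f : k →+* L) (ι : L →+* K) (g : k →+* K) (hfg : ∀ x, ι (f x) = g x) (i j : ℤ)
    (h : Function.Surjective (T.res g i j)) : Function.Surjective (T.res ι i j) := by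
  intro u
  obtain ⟨c, hc⟩ := h u
  refine ⟨T.res f i j c, ?_⟩
  rw [← hc]
  exact res_eq hT (isSm_field k) (isSm_field L) (isSm_field K) (RingHom.ext hfg) i j c

/-- Surjectivity can be checked on finitely generated subfields. -/
theorem surj_of_local {K Ω : Type} [Field K] [CharZero K] [Field Ω] [CharZero Ω] (g : K →+* Ω)
    (i j : ℤ)
    (h : ∀ F : IntermediateField ℚ Ω, F.FG → ∃ (L : Type) (_ : Field L) (_ : CharZero L)
      (a : F →+* L) (b : L →+* Ω) (d : K →+* L), (∀ z, b (a z) = algebraMap F Ω z) ∧
      (∀ z, b (d z) = g z) ∧ Function.Surjective (T.res d i j)) :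
    Function.Surjective (T.res g i j) := by
  intro u
  obtain ⟨F, hF, v, hv⟩ := hT.continuity Ω i j u
  obtain ⟨L, _, _, a, b, d, h1, h2, h3⟩ := h F hF
  obtain ⟨c, hc⟩ := h3 (T.res a i j v)
  refine ⟨c, ?_⟩
  rw [← res_eq hT (isSm_field K) (isSm_field L) (isSm_field Ω) (RingHom.ext h2) i j c, hc,
    res_eq hT (isSm_field F) (isSm_field L) (isSm_field Ω) (RingHom.ext h1) i j v, hv]

/-- Passage to the algebraic closure. -/
theorem surj_algebraicClosure {C R M : Type} [Field C] [CharZero C] [Field R] [Algebra C R]
    [Field M] [Algebra R M] [Algebra.IsAlgebraic R M] (i j : ℤ)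
    (h : ∀ (E : Type) [Field E] [Algebra R E] [FiniteDimensional R E],
      Function.Surjective (T.res ((algebraMap R E).comp (algebraMap C R)) i j)) :
    Function.Surjective (T.res ((algebraMap R M).comp (algebraMap C R)) i j) := by
  have hcR : CharZero R := charZero_of_injective_algebraMap (algebraMap C R).injective
  have hcM : CharZero M := charZero_of_injective_algebraMap (algebraMap R M).injective
  apply surj_of_local hT
  intro F hF
  obtain ⟨G, hG⟩ := hF
  let E := IntermediateField.adjoin R (G : Set M)
  have hfin : FiniteDimensional R E := by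
    apply IntermediateField.finiteDimensional_adjoin
    intro g _
    exact Algebra.IsIntegral.isIntegral g
  have hcE : CharZero E := charZero_of_injective_algebraMap (algebraMap R E).injective
  have hFE : ∀ z : F, (z : M) ∈ E := by
    intro z
    apply mem_of_adjoin (G : Set M) E (IntermediateField.subset_adjoin R (G : Set M))
    rw [hG]
    exact z.2
  exact ⟨E, inferInstance, hcE, inc' F E hFE, algebraMap E M,
    (algebraMap R E).comp (algebraMap C R), fun z => algebraMap_inc' F E hFE z,
    fun z => rfl, h E⟩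

theorem surj_clos_empty {M C Ω : Type} [Field Ω] [CharZero Ω] [IsAlgClosed Ω] [Field C] [Field M]
    [IsAlgClosed M] [Algebra C M] (φ : Ω →+* C) (X : M) (hX : Transcendental C X) (i j : ℤ)
    (h : Function.Surjective (T.res (algebraMap C M) i j)) :
    Function.Surjective (T.res (algebraMap (clos ℚ (∅ : Set Ω)) Ω) i j) := by
  apply surj_of_local hT
  intro F hF
  obtain ⟨G, hG⟩ := hF
  have hFG : F ≤ clos ℚ (G : Set Ω) := by
    rw [← hG]; exact adjoin_le_clos ℚ _
  exact ⟨clos ℚ (G : Set Ω), inferInstance, inferInstance, inc hFG, algebraMap _ Ω,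
    inc (clos_mono ℚ (Set.empty_subset (G : Set Ω))), fun z => algebraMap_inc hFG z,
    fun z => algebraMap_inc _ z, surj_chain hT φ X hX i j h (G : Set Ω) G.finite_toSet⟩

omit hT in
theorem clos_empty_le {Ω : Type} [Field Ω] [CharZero Ω] :
    clos ℚ (∅ : Set Ω) ≤ algebraicClosure ℚ Ω := by
  intro z hz
  rw [mem_clos] at hz
  rw [mem_algebraicClosure_iff]
  have halg : Algebra.IsAlgebraic ℚ (IntermediateField.adjoin ℚ (∅ : Set Ω)) := by
    apply IntermediateField.isAlgebraic_adjoin
    rintro y hy
    exact absurd hy (Set.notMem_empty y)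
  exact hz.restrictScalars ℚ

/-- If the classes over all finite extensions of `ℂ(t)` are constant then all classes over `ℂ`
come from the algebraic numbers. -/
theorem surj_of_curves (i j : ℤ)
    (h : ∀ (E : Type) [Field E] [Algebra (RatFunc ℂ) E] [FiniteDimensional (RatFunc ℂ) E],
      Function.Surjective (T.res ((algebraMap (RatFunc ℂ) E).comp
        (algebraMap ℂ (RatFunc ℂ))) i j)) :
    Function.Surjective (T.res (algebraMap (algebraicClosure ℚ ℂ) ℂ) i j) := by
  have h1 := surj_algebraicClosure hT (C := ℂ) (R := RatFunc ℂ)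
    (M := AlgebraicClosure (RatFunc ℂ)) i j h
  have h2 : (algebraMap (RatFunc ℂ) (AlgebraicClosure (RatFunc ℂ))).comp
      (algebraMap ℂ (RatFunc ℂ)) = algebraMap ℂ (AlgebraicClosure (RatFunc ℂ)) :=
    (IsScalarTower.algebraMap_eq ℂ (RatFunc ℂ) (AlgebraicClosure (RatFunc ℂ))).symm
  rw [h2] at h1
  have hX : Transcendental ℂ (algebraMap (RatFunc ℂ) (AlgebraicClosure (RatFunc ℂ)) RatFunc.X) :=
    (transcendental_algebraMap_iff
      (algebraMap (RatFunc ℂ) (AlgebraicClosure (RatFunc ℂ))).injective).2
      RatFunc.transcendental_X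
  have h3 := surj_clos_empty hT (RingHom.id ℂ) _ hX i j h1
  exact surj_of_comp_right hT (inc clos_empty_le) (algebraMap (algebraicClosure ℚ ℂ) ℂ)
    (algebraMap (clos ℚ (∅ : Set ℂ)) ℂ) (fun z => algebraMap_inc _ z) i j h3

end Pool.Agent.Helper19.BS
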