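import Mathlib
import Pool.Agent.Helper19.BS.Defs
import Pool.Agent.Helper19.BS.Core

/-!
The reduction lemmas of this file are adapted from `Pool/Agent/Helper98/BS/Main.lean`.
-/

set_option autoImplicit false

open AlgebraicGeometry CategoryTheory Polynomial Cardinal

namespace Pool.Agent.Helper19.BS

/-- Every countable field of characteristic zero embeds into `ℂ`. -/
theorem exists_hom_complex (F : Type) [Field F] [CharZero F] [Countable F] :
    Nonempty (F →+* ℂ) := by
  let R := MvPolynomial ℂ F
  let L := FractionRing R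
  let K := AlgebraicClosure L
  have hR : #R = 𝔠 := by
    have h := MvPolynomial.cardinalMk_eq_max (σ := ℂ) (R := F)
    have hF : #F ≤ ℵ₀ := Cardinal.mk_le_aleph0
    rw [show #R = _ from h, Cardinal.mk_complex]
    have h1 : #F ≤ 𝔠 := hF.trans Cardinal.aleph0_le_continuum
    rw [max_eq_right h1, max_eq_left Cardinal.aleph0_le_continuum]
  have hL : #L = 𝔠 := by
    rw [show #L = #R from Cardinal.mk_fractionRing R, hR]
  have hK : #K = 𝔠 := by
    apply le_antisymm
    · have h := Algebra.IsAlgebraic.cardinalMk_le_max L K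
      rw [hL, max_eq_left Cardinal.aleph0_le_continuum] at h
      exact h
    · rw [← hL]
      exact Cardinal.mk_le_of_injective (algebraMap L K).injective
  have hcF : CharZero L := by
    have : CharZero R := inferInstance
    exact charZero_of_injective_algebraMap (IsFractionRing.injective R L)
  have hcK : CharZero K := charZero_of_injective_algebraMap (algebraMap L K).injective
  have hlt : ℵ₀ < #K := by rw [hK]; exact Cardinal.aleph0_lt_continuum
  have heq : Nonempty (K ≃ ℂ) := by
    rw [← Cardinal.eq, hK, Cardinal.mk_complex]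
  obtain ⟨e⟩ := IsAlgClosed.ringEquiv_of_equiv_of_charZero hlt heq
  exact ⟨(e : K →+* ℂ).comp ((algebraMap L K).comp ((algebraMap R L).comp MvPolynomial.C))⟩

/-- The field generated by algebraically independent elements is a rational function field. -/
noncomputable def fieldEquiv {n : ℕ} {k E : Type} [Field k] [Field E] [Algebra k E]
    {x : Fin n → E} (hx : AlgebraicIndependent k x) :
    FractionRing (MvPolynomial (Fin n) k) ≃+* IntermediateField.adjoin k (Set.range x) :=
  hx.aevalEquivField.toRingEquiv

/-- A finitely generated field of characteristic zero is a residue field of the affine line over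
some `ℚ(t_1, ..., t_n)`. -/
theorem exists_closedPoint (E : Type) [Field E] [CharZero E] [Algebra.EssFiniteType ℚ E] :
    ∃ (n : ℕ) (p : ClosedPoint (RatFuncs n)), Nonempty (E →+* AdjoinRoot p.poly) := by
  obtain ⟨s, hs, hsep⟩ := exists_isTranscendenceBasis_and_isSeparable_of_perfectField ℚ E
  let n := Fintype.card s
  let e : Fin n ≃ s := (Fintype.equivFin s).symm
  let x : Fin n → E := fun i => (e i : E)
  have hx : AlgebraicIndependent ℚ x := hs.1.comp e e.injective
  have hr : Set.range x = (s : Set E) := by
    ext y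
    constructor
    · rintro ⟨i, rfl⟩; exact (e i).2
    · intro hy; exact ⟨e.symm ⟨y, hy⟩, by simp [x]⟩
  rw [← hr] at hsep
  let K0 := IntermediateField.adjoin ℚ (Set.range x)
  have hess : Algebra.EssFiniteType K0 E := Algebra.EssFiniteType.of_comp ℚ K0 E
  have hfin : Module.Finite K0 E := Algebra.finite_of_essFiniteType_of_isAlgebraic
  let σ : RatFuncs n ≃+* K0 := fieldEquiv hx
  let φ : RatFuncs n →+* E := (algebraMap K0 E).comp (σ : RatFuncs n →+* K0)
  let _ : Algebra (RatFuncs n) E := φ.toAlgebra
  have hfin' : FiniteDimensional (RatFuncs n) E := by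
    refine Module.Finite.of_equiv_equiv (A₁ := K0) (B₁ := E) (A₂ := RatFuncs n) (B₂ := E)
      σ.symm (RingEquiv.refl E) ?_
    ext y
    change φ (σ.symm y) = _
    simp [φ]
  have hsep' : Algebra.IsSeparable (RatFuncs n) E := inferInstance
  obtain ⟨α, hα⟩ := Field.exists_primitive_element (RatFuncs n) E
  have hint : IsIntegral (RatFuncs n) α := Algebra.IsIntegral.isIntegral α
  refine ⟨n, ⟨minpoly (RatFuncs n) α, minpoly.monic hint, minpoly.irreducible hint⟩, ⟨?_⟩⟩
  let g := (IntermediateField.adjoinRootEquivAdjoin (RatFuncs n) hint).symm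
  let t := (IntermediateField.equivOfEq hα).symm
  let u := (IntermediateField.topEquiv (F := RatFuncs n) (E := E)).symm
  exact (((u.trans t).trans g) : E →ₐ[RatFuncs n] AdjoinRoot (minpoly (RatFuncs n) α)).toRingHom

theorem countable_of_ess (E : Type) [Field E] [CharZero E] [Algebra.EssFiniteType ℚ E] :
    Countable E := by
  obtain ⟨n, p, ⟨f⟩⟩ := exists_closedPoint E
  have h1 : #(MvPolynomial (Fin n) ℚ) ≤ ℵ₀ := by
    refine (MvPolynomial.cardinalMk_le_max (σ := Fin n) (R := ℚ)).trans ?_
    simp
  have h2 : #(RatFuncs n) ≤ ℵ₀ := by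
    rw [show #(RatFuncs n) = #(MvPolynomial (Fin n) ℚ) from Cardinal.mk_fractionRing _]
    exact h1
  have h3 : #((RatFuncs n)[X]) ≤ ℵ₀ := by
    refine (Polynomial.cardinalMk_le_max (R := RatFuncs n)).trans ?_
    exact max_le h2 le_rfl
  have h4 : #(AdjoinRoot p.poly) ≤ ℵ₀ :=
    (Cardinal.mk_le_of_surjective AdjoinRoot.mk_surjective).trans h3
  rw [← Cardinal.mk_le_aleph0_iff]
  exact (Cardinal.mk_le_of_injective (RingHom.injective f)).trans h4

/-- `F(t)` embeds in `ℚ(t_0, ..., t_n)` for `F = ℚ(t_1, ..., t_n)`. -/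
theorem exists_hom_ratFunc (n : ℕ) : Nonempty (RatFunc (RatFuncs n) →+* RatFuncs (n + 1)) := by
  let R := MvPolynomial (Fin n) ℚ
  let P := MvPolynomial (Fin (n + 1)) ℚ
  let F := FractionRing R
  let Q := FractionRing P
  let e : R[X] ≃ₐ[ℚ] P := (MvPolynomial.finSuccEquiv ℚ n).symm
  let j : R[X] →+* Q := (algebraMap P Q).comp (e : R[X] →+* P)
  have hj : Function.Injective j := (IsFractionRing.injective P Q).comp e.injective
  let iR : R →+* Q := j.comp C
  have hiR : Function.Injective iR := hj.comp C_injective
  let i : F →+* Q := IsFractionRing.lift (A := R) (K := F) (g := iR) hiR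
  have hi : ∀ r : R, i (algebraMap R F r) = iR r := fun r => IsFractionRing.lift_algebraMap hiR r
  let φ : F[X] →+* Q := Polynomial.eval₂RingHom i (j X)
  have hφ : ∀ p : R[X], φ (p.map (algebraMap R F)) = j p := by
    intro p
    have h1 : φ.comp (Polynomial.mapRingHom (algebraMap R F)) = j := by
      apply Polynomial.ringHom_ext
      · intro r
        show Polynomial.eval₂ i (j X) ((C r).map (algebraMap R F)) = j (C r)
        rw [Polynomial.map_C, Polynomial.eval₂_C, hi]
        rfl
      · show Polynomial.eval₂ i (j X) ((X : R[X]).map (algebraMap R F)) = j X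
        rw [Polynomial.map_X, Polynomial.eval₂_X]
    exact congrArg (fun g : R[X] →+* Q => g p) h1
  have hinj : Function.Injective φ := by
    rw [injective_iff_map_eq_zero]
    intro p hp
    obtain ⟨b, hbmem, hb⟩ := IsLocalization.integerNormalization_spec (nonZeroDivisors R) p
    have h1 := hφ (IsLocalization.integerNormalization (nonZeroDivisors R) p)
    rw [hb] at h1
    have h2 : φ (b • p) = 0 := by
      have : (b • p) = C (algebraMap R F b) * p := by
        rw [← algebraMap_smul F b p, Polynomial.smul_eq_C_mul]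
      rw [this, map_mul, hp, mul_zero]
    rw [h2] at h1
    have h3 : IsLocalization.integerNormalization (nonZeroDivisors R) p = 0 :=
      hj (by rw [← h1, map_zero])
    rw [h3, Polynomial.map_zero] at hb
    have h4 : (b • p) = 0 := hb.symm
    rcases smul_eq_zero.1 h4 with h5 | h5
    · exact absurd h5 (nonZeroDivisors.ne_zero hbmem)
    · exact h5
  exact ⟨IsFractionRing.lift (A := F[X]) (K := RatFunc F) (g := φ) hinj⟩

variable {T : MotTheory} (hT : IsMotivic T)

include hT

/-- Vanishing for finitely generated fields implies vanishing for all fields. -/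
theorem sub_of_fg {k j : ℤ} (h : ∀ (F : Type) [Field F] [CharZero F] [Algebra.EssFiniteType ℚ F],
    Subsingleton (T.H (Sp F) k j)) (E : Type) [Field E]
    [CharZero E] : Subsingleton (T.H (Sp E) k j) := by
  have key : ∀ a : T.H (Sp E) k j, a = 0 := by
    intro a
    obtain ⟨F, hF, b, rfl⟩ := hT.continuity E k j a
    have hess : Algebra.EssFiniteType ℚ F := IntermediateField.essFiniteType_iff.2 hF
    have := h F
    rw [Subsingleton.elim b 0, map_zero]
  exact ⟨fun a b => by rw [key a, key b]⟩

/-- Vanishing passes to subfields. -/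
theorem sub_of_hom {F E : Type} [Field F] [Field E] [CharZero F] (f : F →+* E) {k j : ℤ}
    (h : Subsingleton (T.H (Sp E) k j)) : Subsingleton (T.H (Sp F) k j) :=
  (hT.res_injective f k j).subsingleton

/-- Vanishing over `ℂ` implies vanishing over all fields of characteristic zero. -/
theorem sub_of_complex {k j : ℤ} (h : Subsingleton (T.H (Sp ℂ) k j)) (E : Type) [Field E]
    [CharZero E] : Subsingleton (T.H (Sp E) k j) := by
  apply sub_of_fg hT
  intro F _ _ _
  have := countable_of_ess F
  obtain ⟨g⟩ := exists_hom_complex F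
  exact sub_of_hom hT g h

/-- If all classes over `F(t)` are constant then the degree drops at all closed points. -/
theorem sub_at (F : Type) [Field F] [CharZero F] {k j : ℤ}
    (h : Function.Surjective (T.res (algebraMap F (RatFunc F)) k j)) (p : ClosedPoint F) :
    Subsingleton (T.H (Sp (AdjoinRoot p.poly)) (k - 1) (j - 1)) := by
  have hk : LinearMap.ker (T.bdry F k j) = ⊤ := by
    rw [hT.bdry_ker, LinearMap.range_eq_top.2 h]
  have hz : ∀ y, y = (0 : DirectSum (ClosedPoint F)
      (fun p => T.H (Sp (AdjoinRoot p.poly)) (k - 1) (j - 1))) := by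
    intro y
    obtain ⟨x, rfl⟩ := hT.bdry_surjective F k j y
    have : x ∈ LinearMap.ker (T.bdry F k j) := by rw [hk]; trivial
    exact this
  have key : ∀ a : T.H (Sp (AdjoinRoot p.poly)) (k - 1) (j - 1), a = 0 := by
    intro a
    classical
    have h0 := hz (DirectSum.of (fun p : ClosedPoint F =>
      T.H (Sp (AdjoinRoot p.poly)) (k - 1) (j - 1)) p a)
    apply DirectSum.of_injective (β := fun p : ClosedPoint F =>
      T.H (Sp (AdjoinRoot p.poly)) (k - 1) (j - 1)) p
    rw [h0, map_zero]
  exact ⟨fun a b => by rw [key a, key b]⟩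

/-- The closed point `t = a`. -/
noncomputable def atPt {F : Type} [Field F] (a : F) : ClosedPoint F :=
  ⟨X - C a, monic_X_sub_C a, irreducible_X_sub_C a⟩

/-- If all classes over `F(t)` are constant then the degree drops. -/
theorem sub_of_surj (F : Type) [Field F] [CharZero F] {k j : ℤ}
    (h : Function.Surjective (T.res (algebraMap F (RatFunc F)) k j)) :
    Subsingleton (T.H (Sp F) (k - 1) (j - 1)) :=
  sub_of_hom hT (AdjoinRoot.of (atPt (0 : F)).poly) (sub_at hT F h (atPt 0))

theorem sub_step {k j : ℤ} (h : Subsingleton (T.H (Sp ℂ) k j)) :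
    Subsingleton (T.H (Sp ℂ) (k - 1) (j - 1)) := by
  apply sub_of_surj hT ℂ
  have := sub_of_complex hT h (RatFunc ℂ)
  exact fun y => ⟨0, Subsingleton.elim _ _⟩

theorem sub_iter {k w : ℤ} (h : Subsingleton (T.H (Sp ℂ) k w)) (m : ℕ) :
    Subsingleton (T.H (Sp ℂ) (k - m) (w - m)) := by
  induction m with
  | zero => simpa using h
  | succ m ih =>
    have := sub_step hT ih
    have e1 : (k - (m : ℤ) - 1) = k - ((m + 1 : ℕ) : ℤ) := by push_cast; ring
    have e2 : (w - (m : ℤ) - 1) = w - ((m + 1 : ℕ) : ℤ) := by push_cast; ring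
    rwa [e1, e2] at this

theorem sub_all {k w : ℤ} (h : Subsingleton (T.H (Sp ℂ) k w)) (m : ℕ) (F : Type) [Field F]
    [CharZero F] : Subsingleton (T.H (Sp F) (k - m) (w - m)) :=
  sub_of_complex hT (sub_iter hT h m) F

theorem surj_of (k w : ℤ) (h : Subsingleton (T.H (Sp ℂ) k w)) (F : Type) [Field F]
    [CharZero F] : Function.Surjective (T.res (algebraMap F (RatFunc F)) (k + 1) (w + 1)) := by
  intro y
  have hs : ∀ p : ClosedPoint F,
      Subsingleton (T.H (Sp (AdjoinRoot p.poly)) (k + 1 - 1) (w + 1 - 1)) := by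
    intro p
    have : CharZero (AdjoinRoot p.poly) :=
      charZero_of_injective_ringHom (AdjoinRoot.of p.poly).injective
    have e1 : k + 1 - 1 = k := by ring
    have e2 : w + 1 - 1 = w := by ring
    rw [e1, e2]
    exact sub_of_complex hT h _
  have hz : T.bdry F (k + 1) (w + 1) y = 0 := by
    apply DFinsupp.ext
    intro p
    exact @Subsingleton.elim _ (hs p) _ _
  have : y ∈ LinearMap.ker (T.bdry F (k + 1) (w + 1)) := hz
  rw [hT.bdry_ker] at this
  exact this

theorem of_surj_rat (k w : ℤ)
    (h : ∀ n, Function.Surjective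
      (T.res (algebraMap (RatFuncs n) (RatFunc (RatFuncs n))) (k + 1) (w + 1))) :
    Subsingleton (T.H (Sp ℂ) k w) := by
  apply sub_of_fg hT
  intro F _ _ _
  obtain ⟨n, p, ⟨f⟩⟩ := exists_closedPoint F
  have := sub_at hT (RatFuncs n) (h n) p
  have e1 : k + 1 - 1 = k := by ring
  have e2 : w + 1 - 1 = w := by ring
  rw [e1, e2] at this
  exact sub_of_hom hT f this

omit hT in
theorem charZero_residue (F : Type) [Field F] [CharZero F] (X : Scheme.{0}) (f : X ⟶ Sp F)
    (x : X) : CharZero (X.residueField x) := by
  let φ : CommRingCat.of F ⟶ X.residueField x := Spec.preimage (X.fromSpecResidueField x ≫ f)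
  exact charZero_of_injective_ringHom (φ.hom : F →+* X.residueField x).injective

theorem bs_of (h : ∀ w, Subsingleton (T.H (Sp ℂ) (-1) w)) (F : Type) [Field F] [CharZero F]
    (X : Scheme.{0}) (f : X ⟶ Sp F) (h1 : IsSmoothVar F X f) : BeilinsonSoule T X := by
  intro k j hk
  apply hT.coniveau F X f h1 k j
  intro x c _
  have hc : CharZero (X.residueField x) := charZero_residue F X f x
  obtain ⟨m, hm⟩ : ∃ m : ℕ, k - 2 * c = -1 - m := ⟨(-1 - (k - 2 * c)).toNat, by omega⟩
  have := sub_all hT (h (j - c + m)) m (X.residueField x)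
  have e2 : j - c + m - m = j - c := by ring
  rw [e2] at this
  rw [hm]
  exact this

theorem strong_of (h : ∀ w, 0 < w → Subsingleton (T.H (Sp ℂ) 0 w)) (F : Type) [Field F]
    [CharZero F] (X : Scheme.{0}) (f : X ⟶ Sp F) (h1 : IsSmoothVar F X f) : StrongBeilinsonSoule T X := by
  intro k j hk hj
  apply hT.coniveau F X f h1 k j
  intro x c _
  have hc : CharZero (X.residueField x) := charZero_residue F X f x
  by_cases hjc : j - c ≤ 0
  · exact hT.low_weight (X.residueField x) _ _ (by omega) hjc
  · obtain ⟨m, hm⟩ : ∃ m : ℕ, k - 2 * c = 0 - m := ⟨(0 - (k - 2 * c)).toNat, by omega⟩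
    have := sub_all hT (h (j - c + m) (by omega)) m (X.residueField x)
    have e2 : j - c + m - m = j - c := by ring
    rw [e2] at this
    rw [hm]
    exact this


end Pool.Agent.Helper19.BS
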