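import Mathlib
import Pool.Agent.Helper19.BS.Omega
import Pool.Agent.Helper19.BS.Points

set_option autoImplicit false

open AlgebraicGeometry CategoryTheory Polynomial Cardinal

namespace Pool.Agent.Helper19.BS

theorem trdeg_complex : Algebra.trdeg ℚ ℂ = 𝔠 := by
  obtain ⟨B, hB⟩ := exists_isTranscendenceBasis ℚ ℂ
  rw [← hB.cardinalMk_eq_trdeg, ← Cardinal.mk_complex]
  have h := IsAlgClosed.cardinal_eq_cardinal_transcendence_basis_of_aleph0_lt' ((↑) : B → ℂ) hB
    (by simp) (by rw [Cardinal.mk_complex]; exact Cardinal.aleph0_lt_continuum)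
  exact h.symm

theorem large_complex : Large ℂ := by
  unfold Large
  rw [trdeg_complex]
  exact Cardinal.aleph0_le_continuum

instance isAlgebraic_qbar (Ω : Type) [Field Ω] [CharZero Ω] : Algebra.IsAlgebraic ℚ (Qbar Ω) := by
  have h := algebraicClosure.isAlgebraic ℚ Ω
  convert h
  · rfl
  · exact Subsingleton.elim _ _

theorem trdeg_qbar (Ω : Type) [Field Ω] [CharZero Ω] :
    Algebra.trdeg (Qbar Ω) Ω = Algebra.trdeg ℚ Ω := by
  obtain ⟨B, hB⟩ := exists_isTranscendenceBasis ℚ Ω
  have h : IsTranscendenceBasis (Qbar Ω) ((↑) : B → Ω) :=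
    (Algebra.IsAlgebraic.isTranscendenceBasis_iff ℚ (Qbar Ω)).1 hB
  rw [← hB.cardinalMk_eq_trdeg, ← h.cardinalMk_eq_trdeg]

theorem isAlgClosed_qbar (Ω : Type) [Field Ω] [CharZero Ω] [IsAlgClosed Ω] :
    IsAlgClosed (Qbar Ω) := by
  have h := algebraicClosure.isAlgClosure ℚ Ω
  exact h.isAlgClosed

theorem exists_hom_large {F : Type} [Field F] [CharZero F] (hF : Large F) (n : ℕ) :
    Nonempty (RatFuncs n →+* F) := by
  obtain ⟨w, hw⟩ := exists_indep (k := ℚ) (Ω := F) hF n
  exact ⟨(algebraMap (IntermediateField.adjoin ℚ (Set.range w)) F).comp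
    (fieldEquiv hw : RatFuncs n →+* IntermediateField.adjoin ℚ (Set.range w))⟩

variable {T : MotTheory} (hT : IsMotivic T)

include hT

theorem surj_small {Ω : Type} [Field Ω] [CharZero Ω] [IsAlgClosed Ω] (hΩ : Large Ω) (k w : ℤ)
    (h : Module.rank ℚ (NewClasses T (Qbar Ω) Ω k w) < Algebra.trdeg ℚ Ω) :
    Function.Surjective (T.res (algebraMap (Qbar Ω) Ω) k w) := by
  have := isAlgClosed_qbar Ω
  rw [← trdeg_qbar Ω] at h
  refine surj_of_small hT ?_ k w h
  rw [trdeg_qbar]
  exact hΩ

theorem rigid_of_surj {Ω : Type} [Field Ω] [CharZero Ω] [IsAlgClosed Ω] (hΩ : Large Ω) (k w : ℤ)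
    (h : Function.Surjective (T.res (algebraMap (Qbar Ω) Ω) k w)) : Rigid T k w := by
  have := isAlgClosed_qbar Ω
  intro F E _ _ _ _ _ f
  refine ⟨hT.res_injective f k w, ?_⟩
  refine surj_all hT (k := Qbar Ω) (Ω := Ω) ?_ k w h f
  rw [trdeg_qbar]
  exact hΩ

theorem auts_of_surj (k w : ℤ) (h : Function.Surjective (T.res (algebraMap (Qbar ℂ) ℂ) k w)) :
    AutTrivial T k w := by
  intro σ u
  obtain ⟨c, rfl⟩ := h u
  exact res_eq hT (isSm_field (Qbar ℂ)) (isSm_field ℂ) (isSm_field ℂ)
    (RingHom.ext fun z => σ.commutes z) k w c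

theorem curves_of_rigid (k w : ℤ) (h : Rigid T k w) : CurvesConstant T k w := by
  intro E _ _ _
  have hcE : CharZero E := charZero_of_injective_ringHom
    (f := (algebraMap (RatFunc ℂ) E).comp (algebraMap ℂ (RatFunc ℂ))) (RingHom.injective _)
  have hcM : CharZero (AlgebraicClosure E) :=
    charZero_of_injective_algebraMap (algebraMap E (AlgebraicClosure E)).injective
  exact surj_of_factor hT _ (algebraMap E (AlgebraicClosure E))
    ((algebraMap E (AlgebraicClosure E)).comp
      ((algebraMap (RatFunc ℂ) E).comp (algebraMap ℂ (RatFunc ℂ)))) (fun x => rfl) k w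
    (h _ _ _).2

/-- The equivalent forms of rigidity in a fixed degree and weight. -/
theorem tfae_rigid (k w : ℤ) : List.TFAE
    [Rigid T k w, FromQbar T k w, SmallOverC T k w, AutTrivial T k w, SmallOrbits T k w,
     CurvesConstant T k w, SmallSomewhere T k w] := by
  have hc := isAlgClosed_qbar ℂ
  tfae_have 1 → 2 := fun h => h _ _ _
  tfae_have 2 → 3 := by
    intro h
    have ht := LinearMap.range_eq_top.2 h.2
    have : Subsingleton (NewClasses T (Qbar ℂ) ℂ k w) := Submodule.Quotient.subsingleton_iff.2 ht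
    unfold SmallOverC
    rw [rank_subsingleton']
    exact lt_of_lt_of_le Cardinal.aleph0_pos Cardinal.aleph0_le_continuum
  tfae_have 3 → 7 := by
    intro h
    refine ⟨ℂ, inferInstance, inferInstance, inferInstance, large_complex, ?_⟩
    rw [trdeg_complex]
    exact h
  tfae_have 7 → 1 := by
    rintro ⟨Ω, _, _, hcl, hΩ, h⟩
    exact rigid_of_surj hT hΩ k w (surj_small hT hΩ k w h)
  tfae_have 2 → 4 := fun h => auts_of_surj hT k w h.2
  tfae_have 4 → 5 := by
    intro h u
    have hr : (Set.range fun σ : ℂ ≃ₐ[Qbar ℂ] ℂ => T.res (σ : ℂ →+* ℂ) k w u) = {u} := by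
      ext v
      constructor
      · rintro ⟨σ, rfl⟩
        exact h σ u
      · rintro rfl
        exact ⟨AlgEquiv.refl, h _ _⟩
    rw [hr, Cardinal.mk_singleton]
    exact lt_of_lt_of_le Cardinal.one_lt_aleph0 Cardinal.aleph0_le_continuum
  tfae_have 5 → 2 := by
    intro h
    refine ⟨hT.res_injective _ k w, ?_⟩
    refine surj_of_orbits hT ?_ k w ?_
    · rw [trdeg_qbar]
      exact large_complex
    · intro u
      rw [trdeg_qbar, trdeg_complex]
      exact h u
  tfae_have 1 → 6 := curves_of_rigid hT k w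
  tfae_have 6 → 2 := fun h => ⟨hT.res_injective _ k w, surj_of_curves hT k w h⟩
  tfae_finish

/-- A small group in degree `k + 1` and weight `w + 1` over some field kills degree `k` and
weight `w` over all fields. -/
theorem vanish_of_small (k w : ℤ) (h : SmallOverSomeField T (k + 1) (w + 1)) :
    FieldsVanish T k w := by
  obtain ⟨Ω, _, _, hΩ, hs⟩ := h
  have h1 : ∀ (n : ℕ) (f : ℚ →+* RatFuncs n),
      Function.Surjective (T.res f (k + 1) (w + 1)) := by
    intro n f
    have h0 := surj_frac_of_small hT hΩ (k + 1) (w + 1) hs n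
    convert h0
    · rfl
    · exact Subsingleton.elim _ _
  have h2 : Subsingleton (T.H (Sp ℂ) k w) := by
    apply of_surj_rat hT
    intro n
    obtain ⟨g⟩ := exists_hom_ratFunc n
    have hc1 : CharZero (RatFunc (RatFuncs n)) :=
      charZero_of_injective_algebraMap (algebraMap (RatFuncs n) _).injective
    have h3 : Function.Surjective
        (T.res (algebraMap ℚ (RatFunc (RatFuncs n))) (k + 1) (w + 1)) :=
      surj_of_factor hT _ g (algebraMap ℚ (RatFuncs (n + 1)))
        (fun x => by rw [eq_ratCast, eq_ratCast, map_ratCast]) _ _ (h1 (n + 1) _)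
    exact surj_of_comp_right hT (algebraMap ℚ (RatFuncs n)) _
      (algebraMap ℚ (RatFunc (RatFuncs n)))
      (fun x => by rw [eq_ratCast, eq_ratCast, map_ratCast]) _ _ h3
  intro F _ _
  exact sub_of_complex hT h2 F

/-- The fields `F(t)` for a single large field `F` detect the vanishing. -/
theorem line_iff_vanish (F : Type) [Field F] [CharZero F] (hF : Large F) (k w : ℤ) :
    LineConstant T F (k + 1) (w + 1) ↔ FieldsVanish T k w := by
  constructor
  · intro h
    have h2 : Subsingleton (T.H (Sp ℂ) k w) := by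
      apply sub_of_fg hT
      intro E _ _ _
      obtain ⟨n, q, ⟨f⟩⟩ := exists_closedPoint E
      obtain ⟨g⟩ := exists_hom_large hF n
      -- an irreducible factor
      have hdeg : (q.poly.map g).degree ≠ 0 := by
        rw [Polynomial.degree_map]
        exact (q.irreducible.degree_pos).ne'
      have hne : q.poly.map g ≠ 0 := (Polynomial.map_ne_zero_iff g.injective).2 q.monic.ne_zero
      have hnu : ¬ IsUnit (q.poly.map g) := by
        intro hu
        exact hdeg (Polynomial.degree_eq_zero_of_isUnit hu)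
      obtain ⟨P, hpd⟩ : ∃ P : ClosedPoint F, P.poly ∣ q.poly.map g := by
        obtain ⟨p, hpm, hpi, hpd⟩ := Polynomial.exists_monic_irreducible_factor _ hnu
        exact ⟨⟨p, hpm, hpi⟩, hpd⟩
      have h3 := sub_at hT F h P
      have e1 : k + 1 - 1 = k := by ring
      have e2 : w + 1 - 1 = w := by ring
      rw [e1, e2] at h3
      have hev : Polynomial.eval₂ ((AdjoinRoot.of P.poly).comp g) (AdjoinRoot.root P.poly)
          q.poly = 0 := by
        rw [← Polynomial.eval₂_map]
        obtain ⟨r, hr⟩ := hpd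
        rw [hr, Polynomial.eval₂_mul, AdjoinRoot.eval₂_root, zero_mul]
      let φ : AdjoinRoot q.poly →+* AdjoinRoot P.poly :=
        AdjoinRoot.lift ((AdjoinRoot.of P.poly).comp g) (AdjoinRoot.root P.poly) hev
      exact sub_of_hom hT (E := AdjoinRoot P.poly) (φ.comp f) h3
    intro E _ _
    exact sub_of_complex hT h2 E
  · intro h
    exact surj_of hT k w (h ℂ) F

theorem qbar_vanish (k w : ℤ) (hk : k ≤ 0) (hw : 0 < w) :
    Subsingleton (T.H (Sp (Qbar ℂ)) k w) := by
  have key : ∀ u : T.H (Sp (Qbar ℂ)) k w, u = 0 := by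
    intro u
    obtain ⟨F, hF, b, hb⟩ := hT.continuity (Qbar ℂ) k w u
    obtain ⟨G, hG⟩ := hF
    have hfin : FiniteDimensional ℚ F := by
      rw [← hG]
      apply IntermediateField.finiteDimensional_adjoin
      intro g _
      exact Algebra.IsIntegral.isIntegral g
    have hnf : NumberField F := { to_charZero := inferInstance, to_finiteDimensional := hfin }
    have := hT.borel F k w hk hw
    rw [← hb, Subsingleton.elim b 0, map_zero]
  exact ⟨fun u v => by rw [key u, key v]⟩

theorem complex_vanish (k w : ℤ) (hk : k ≤ 0) (hw : 0 < w)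
    (h : Function.Surjective (T.res (algebraMap (Qbar ℂ) ℂ) k w)) :
    Subsingleton (T.H (Sp ℂ) k w) := by
  have := qbar_vanish hT k w hk hw
  exact h.subsingleton

/-- In the range of Borel's theorem rigidity is the vanishing. -/
theorem rigid_iff_vanish (k w : ℤ) (hk : k ≤ 0) (hw : 0 < w) :
    Rigid T k w ↔ FieldsVanish T k w := by
  constructor
  · intro h F _ _
    have h1 : FromQbar T k w := ((tfae_rigid hT k w).out 0 1).1 h
    exact sub_of_complex hT (complex_vanish hT k w hk hw h1.2) F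
  · intro h F E _ _ _ _ _ f
    have hcE : CharZero E := charZero_of_injective_ringHom f.injective
    have h1 := h E
    exact ⟨hT.res_injective f k w, fun u => ⟨0, Subsingleton.elim _ _⟩⟩

theorem rigid_of_rank (k w : ℤ) (h : Module.rank ℚ (T.H (Sp ℂ) k w) < 𝔠) : Rigid T k w := by
  refine ((tfae_rigid hT k w).out 2 0).1 ?_
  exact lt_of_le_of_lt (rank_quotient_le _) h

omit hT in
theorem rank_of_vanish (k w : ℤ) (h : FieldsVanish T k w) :
    Module.rank ℚ (T.H (Sp ℂ) k w) < 𝔠 := by
  have := h ℂ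
  rw [rank_subsingleton']
  exact lt_of_lt_of_le Cardinal.aleph0_pos Cardinal.aleph0_le_continuum

/-- The strong Beilinson-Soule vanishing. -/
theorem tfae_strong (P : ∀ X : Scheme.{0}, (X ⟶ Sp ℂ) → Prop) (hP : IsClass P) : List.TFAE
    [ForClass P (StrongBeilinsonSoule T), ForAll (StrongBeilinsonSoule T), ∀ w > 0, Rigid T 0 w,
     ∀ w > 0, Module.rank ℚ (T.H (Sp ℂ) 0 w) < 𝔠] := by
  tfae_have 1 → 4 := by
    intro h w hw
    apply rank_of_vanish
    intro F _ _
    exact sub_of_complex hT (h (Sp ℂ) (𝟙 _) hP.2 0 w le_rfl hw) F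
  tfae_have 4 → 3 := fun h w hw => rigid_of_rank hT 0 w (h w hw)
  tfae_have 3 → 2 := by
    intro h F _ _ X f hX
    exact strong_of hT (fun w hw => ((rigid_iff_vanish hT 0 w le_rfl hw).1 (h w hw)) ℂ) F X f hX
  tfae_have 2 → 1 := fun h X f hX => h ℂ X f (hP.1 X f hX)
  tfae_finish

/-- The Beilinson-Soule vanishing. -/
theorem tfae_weak (P : ∀ X : Scheme.{0}, (X ⟶ Sp ℂ) → Prop) (hP : IsClass P) : List.TFAE
    [ForClass P (BeilinsonSoule T), ForAll (BeilinsonSoule T), ∀ w > 0, Rigid T (-1) w,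
     ∀ w > 0, Module.rank ℚ (T.H (Sp ℂ) (-1) w) < 𝔠] := by
  tfae_have 1 → 4 := by
    intro h w _
    apply rank_of_vanish
    intro F _ _
    exact sub_of_complex hT (h (Sp ℂ) (𝟙 _) hP.2 (-1) w (by norm_num)) F
  tfae_have 4 → 3 := fun h w hw => rigid_of_rank hT (-1) w (h w hw)
  tfae_have 3 → 2 := by
    intro h F _ _ X f hX
    refine bs_of hT (fun w => ?_) F X f hX
    by_cases hw : 0 < w
    · exact ((rigid_iff_vanish hT (-1) w (by norm_num) hw).1 (h w hw)) ℂ
    · exact hT.low_weight ℂ (-1) w (by norm_num) (by omega)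
  tfae_have 2 → 1 := fun h X f hX => h ℂ X f (hP.1 X f hX)
  tfae_finish

theorem strong_of_small (h : ∀ w : ℤ, 2 ≤ w → SmallOverSomeField T 1 w) :
    ForAll (StrongBeilinsonSoule T) := by
  intro F _ _ X f hX
  refine strong_of hT (fun w hw => ?_) F X f hX
  have h1 := h (w + 1) (by omega)
  exact vanish_of_small hT 0 w (by simpa using h1) ℂ

theorem weak_of_small (h : ∀ w : ℤ, 2 ≤ w → SmallOverSomeField T 0 w) :
    ForAll (BeilinsonSoule T) := by
  intro F _ _ X f hX
  refine bs_of hT (fun w => ?_) F X f hX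
  by_cases hw : 0 < w
  · have h1 := h (w + 1) (by omega)
    exact vanish_of_small hT (-1) w (by simpa using h1) ℂ
  · exact hT.low_weight ℂ (-1) w (by norm_num) (by omega)

end Pool.Agent.Helper19.BS
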